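import Mathlib
import Pool.Agent.U583.VD.Gen

/-!
# Few multiplicities at a finite set of primes
-/

set_option autoImplicit false

namespace Pool.Agent.U583.VD

open Pool.Agent.Y902.GN Pool.Agent.U583.TV

/-- the sum of `log p` over the elements of `T` outside of `S` -/
noncomputable def N1L (S T : Finset ℕ) : ℝ := ∑ p ∈ T \ S, Real.log p

theorem N1L_nonneg (S T : Finset ℕ) : 0 ≤ N1L S T :=
  Finset.sum_nonneg fun p _ => Real.log_natCast_nonneg p

/-- up to differences at most `D`, the multiplicities of `x` at the primes in `T` outside of `S` take at most `N` values -/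
def FewMultL {n : ℕ} (S T : Finset ℕ) (N D : ℕ) (x : Fin n → ℚ) : Prop :=
  ∃ W : Finset (Fin n → ℤ), W.card ≤ N ∧
    ∀ p ∈ T \ S, ∃ w ∈ W, ∀ i, |mult x p i - w i| ≤ (D : ℤ)

theorem prod_pow_leL {S T0 : Finset ℕ} (T : Finset ℕ) (hT : T ⊆ T0 \ S)
    (hp : ∀ p ∈ T, p.Prime) (f : ℕ → ℕ) {D : ℕ} (hf : ∀ p ∈ T, f p ≤ D) :
    1 ≤ ∏ p ∈ T, p ^ f p ∧ ((∏ p ∈ T, p ^ f p : ℕ) : ℝ) ≤ Real.exp (D * N1L S T0) := by
  refine ⟨Finset.one_le_prod' fun p h => Nat.one_le_pow _ _ (hp p h).pos, ?_⟩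
  have h1 : ((∏ p ∈ T, p ^ f p : ℕ) : ℝ) = Real.exp (∑ p ∈ T, f p * Real.log p) := by
    rw [Real.exp_sum]
    push_cast
    refine Finset.prod_congr rfl fun p h => ?_
    rw [Real.exp_nat_mul, Real.exp_log]
    exact_mod_cast (hp p h).pos
  rw [h1]
  apply Real.exp_le_exp.2
  calc ∑ p ∈ T, (f p : ℝ) * Real.log p ≤ ∑ p ∈ T, (D : ℝ) * Real.log p := by
        refine Finset.sum_le_sum fun p h => ?_
        exact mul_le_mul_of_nonneg_right (by exact_mod_cast hf p h) (Real.log_natCast_nonneg p)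
    _ = D * ∑ p ∈ T, Real.log p := by rw [Finset.mul_sum]
    _ ≤ _ := by
        refine mul_le_mul_of_nonneg_left ?_ (Nat.cast_nonneg D)
        exact Finset.sum_le_sum_of_subset_of_nonneg hT fun _ _ _ => Real.log_natCast_nonneg _

theorem gens_of_multL {n : ℕ} {x : Fin n → ℚ} (hx : ∀ i, x i ≠ 0) (S T : Finset ℕ)
    (hT : ∀ p ∈ T, p.Prime) (hTx : bad x ⊆ T) {N D : ℕ} (hN : FewMultL S T N D x) {δ : ℝ}
    (hδ : 2 * ht x + D ≤ Real.exp (δ * N1L S T)) (hδ0 : 0 ≤ δ) :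
    GensL (N + (n + n) + S.card) (D + S.sup id + 1) δ (N1L S T) x := by
  classical
  obtain ⟨W, hW, hWp⟩ := hN
  choose! a ha1 ha2 using hWp
  obtain ⟨I, hI⟩ : ∃ I : Finset (Fin n → ℤ), I = (T \ S).image a := ⟨_, rfl⟩
  have hIN : I.card ≤ N := by
    refine le_trans (Finset.card_le_card ?_) hW
    intro w hw
    rw [hI, Finset.mem_image] at hw
    obtain ⟨p, hp, rfl⟩ := hw
    exact ha1 p hp
  have hTS : ∀ p ∈ T \ S, p.Prime := fun p hp => hT p (Finset.mem_sdiff.1 hp).1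
  have hcard : Fintype.card ({v // v ∈ I} ⊕ ((Fin n ⊕ Fin n) ⊕ {p // p ∈ T ∩ S})) ≤
      Fintype.card (Fin (N + (n + n) + S.card)) := by
    rw [Fintype.card_sum, Fintype.card_sum, Fintype.card_sum, Fintype.card_coe, Fintype.card_coe,
      Fintype.card_fin, Fintype.card_fin]
    have := Finset.card_le_card (Finset.inter_subset_right (s₁ := T) (s₂ := S))
    omega
  obtain ⟨f⟩ := Function.Embedding.nonempty_of_card_le hcard
  obtain ⟨g, hg⟩ : ∃ g : {v // v ∈ I} ⊕ ((Fin n ⊕ Fin n) ⊕ {p // p ∈ T ∩ S}) → ℕ,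
      g = Sum.elim (fun v => ∏ p ∈ (T \ S).filter (fun p => a p = v.1), p ^ 1)
        (Sum.elim (Sum.elim (fun i => ∏ p ∈ T \ S, p ^ (mult x p i - a p i).toNat)
          fun i => ∏ p ∈ T \ S, p ^ (-(mult x p i - a p i)).toNat) fun p => p.1) := ⟨_, rfl⟩
  obtain ⟨e, he⟩ : ∃ e : Fin n → {v // v ∈ I} ⊕ ((Fin n ⊕ Fin n) ⊕ {p // p ∈ T ∩ S}) → ℤ,
      e = fun i => Sum.elim (fun v => v.1 i) (Sum.elim (Sum.elim (fun i' => if i' = i then 1 else 0)
        fun i' => if i' = i then -1 else 0) (fun p => mult x p.1 i)) := ⟨_, rfl⟩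
  have hN0 := N1L_nonneg S T
  have hD0 : (0 : ℝ) ≤ (D : ℝ) := Nat.cast_nonneg D
  have hS0 : (0 : ℝ) ≤ ((S.sup id : ℕ) : ℝ) := Nat.cast_nonneg _
  have hcast : ((D + S.sup id + 1 : ℕ) : ℝ) = (D : ℝ) + ((S.sup id : ℕ) : ℝ) + 1 := by push_cast; rfl
  have hbig : ∀ t : ℝ, t ≤ ((D : ℝ) + 1) * N1L S T →
      Real.exp t ≤ Real.exp (((D + S.sup id + 1 : ℕ) : ℝ) * (N1L S T + 1)) := fun t ht => by
    apply Real.exp_le_exp.2
    rw [hcast]
    nlinarith [mul_nonneg hS0 hN0]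
  have hg1 : ∀ t, 1 ≤ g t ∧
      (g t : ℝ) ≤ Real.exp (((D + S.sup id + 1 : ℕ) : ℝ) * (N1L S T + 1)) := by
    intro t
    rw [hg]
    rcases t with v | ((i | i) | p)
    · simp only [Sum.elim_inl]
      have h1 := prod_pow_leL (T0 := T) (S := S) ((T \ S).filter (fun p => a p = v.1))
        (Finset.filter_subset _ _) (fun p hp => hTS p (Finset.mem_filter.1 hp).1) (fun _ => 1)
        (D := 1) (fun _ _ => le_refl 1)
      refine ⟨h1.1, h1.2.trans (hbig _ ?_)⟩
      push_cast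
      nlinarith
    · simp only [Sum.elim_inl, Sum.elim_inr]
      have h1 := prod_pow_leL (T0 := T) (S := S) (T \ S) subset_rfl hTS
        (fun p => (mult x p i - a p i).toNat) (D := D) (fun p hp => by
          have := ha2 p hp i
          have := le_abs_self (mult x p i - a p i)
          show (mult x p i - a p i).toNat ≤ D
          omega)
      refine ⟨h1.1, h1.2.trans (hbig _ ?_)⟩
      nlinarith
    · simp only [Sum.elim_inl, Sum.elim_inr]
      have h1 := prod_pow_leL (T0 := T) (S := S) (T \ S) subset_rfl hTS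
        (fun p => (-(mult x p i - a p i)).toNat) (D := D) (fun p hp => by
          have := ha2 p hp i
          have := neg_abs_le (mult x p i - a p i)
          show (-(mult x p i - a p i)).toNat ≤ D
          omega)
      refine ⟨h1.1, h1.2.trans (hbig _ ?_)⟩
      nlinarith
    · simp only [Sum.elim_inr]
      obtain ⟨h1, h2⟩ := Finset.mem_inter.1 p.2
      refine ⟨(hT _ h1).one_le, ?_⟩
      have h3 : (p.1 : ℕ) ≤ S.sup id := Finset.le_sup (f := id) h2
      have h4 : ((p.1 : ℕ) : ℝ) ≤ ((S.sup id : ℕ) : ℝ) := by exact_mod_cast h3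
      have h6 := Real.add_one_le_exp (((D + S.sup id + 1 : ℕ) : ℝ) * (N1L S T + 1))
      rw [hcast] at h6 ⊢
      nlinarith [mul_nonneg hS0 hN0, mul_nonneg hD0 hN0]
  have hval : ∀ p ∈ T, ∀ i, ((mult x p i).natAbs : ℝ) ≤ 2 * ht x := fun p hp i =>
    val_ht hx (hT p hp) i
  have hht := ht_nonneg x
  have hee : ∀ i t, ((e i t).natAbs : ℝ) ≤ Real.exp (δ * N1L S T) := by
    intro i t
    have hexp1 : (1 : ℝ) ≤ Real.exp (δ * N1L S T) := Real.one_le_exp (mul_nonneg hδ0 hN0)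
    rw [he]
    rcases t with v | ((i' | i') | p)
    · simp only [Sum.elim_inl]
      obtain ⟨p, hp, hpv⟩ := Finset.mem_image.1 (hI.le v.2)
      rw [← hpv]
      refine le_trans ?_ hδ
      have h1 := abs_le.1 (ha2 p hp i)
      have h2 : (a p i).natAbs ≤ (mult x p i).natAbs + D := by omega
      have h3 : ((a p i).natAbs : ℝ) ≤ ((mult x p i).natAbs : ℝ) + D := by exact_mod_cast h2
      have h4 := hval p (Finset.mem_sdiff.1 hp).1 i
      linarith
    · simp only [Sum.elim_inl, Sum.elim_inr]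
      split_ifs
      · simpa using hexp1
      · simpa using (Real.exp_pos (δ * N1L S T)).le
    · simp only [Sum.elim_inl, Sum.elim_inr]
      split_ifs
      · simpa using hexp1
      · simpa using (Real.exp_pos (δ * N1L S T)).le
    · simp only [Sum.elim_inr]
      refine le_trans ?_ hδ
      have h4 := hval _ (Finset.mem_inter.1 p.2).1 i
      linarith
  have hpe : ∀ i, ∏ t, (g t : ℚ) ^ e i t = ∏ p ∈ T, (p : ℚ) ^ mult x p i := by
    intro i
    rw [Fintype.prod_sum_type, Fintype.prod_sum_type, Fintype.prod_sum_type]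
    have h1 : ∏ v : {v // v ∈ I}, (g (Sum.inl v) : ℚ) ^ e i (Sum.inl v) =
        ∏ p ∈ T \ S, (p : ℚ) ^ a p i := by
      rw [hg, he]
      simp only [Sum.elim_inl, pow_one]
      rw [Finset.prod_coe_sort I (fun v => ((∏ p ∈ (T \ S).filter (fun p => a p = v),
        p : ℕ) : ℚ) ^ v i)]
      rw [← Finset.prod_fiberwise_of_maps_to (s := T \ S) (t := I) (g := a) (fun p hp => by
        rw [hI]
        exact Finset.mem_image_of_mem _ hp)]
      refine Finset.prod_congr rfl fun v _ => ?_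
      push_cast
      rw [← Finset.prod_zpow]
      refine Finset.prod_congr rfl fun p hp => ?_
      rw [(Finset.mem_filter.1 hp).2]
    have h2 : ∏ p : {p // p ∈ T ∩ S}, (g (Sum.inr (Sum.inr p)) : ℚ) ^
        e i (Sum.inr (Sum.inr p)) = ∏ p ∈ T ∩ S, (p : ℚ) ^ mult x p i := by
      rw [hg, he]
      simp only [Sum.elim_inr]
      rw [Finset.prod_coe_sort (T ∩ S) (fun p => (p : ℚ) ^ mult x p i)]
    have h3 : ∏ i' : Fin n, (g (Sum.inr (Sum.inl (Sum.inl i'))) : ℚ) ^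
        e i (Sum.inr (Sum.inl (Sum.inl i'))) =
        ∏ p ∈ T \ S, (p : ℚ) ^ ((mult x p i - a p i).toNat : ℤ) := by
      rw [Finset.prod_eq_single i]
      · rw [hg, he]
        simp only [Sum.elim_inr, Sum.elim_inl, if_true, zpow_one]
        push_cast
        rfl
      · intro i' _ hi'
        rw [he]
        simp only [Sum.elim_inr, Sum.elim_inl]
        rw [if_neg hi', zpow_zero]
      · intro h
        exact absurd (Finset.mem_univ i) h
    have h4 : ∏ i' : Fin n, (g (Sum.inr (Sum.inl (Sum.inr i'))) : ℚ) ^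
        e i (Sum.inr (Sum.inl (Sum.inr i'))) =
        ∏ p ∈ T \ S, (p : ℚ) ^ (-((-(mult x p i - a p i)).toNat : ℤ)) := by
      rw [Finset.prod_eq_single i]
      · rw [hg, he]
        simp only [Sum.elim_inr, Sum.elim_inl, if_true, zpow_neg, zpow_one]
        rw [Finset.prod_inv_distrib]
        push_cast
        rfl
      · intro i' _ hi'
        rw [he]
        simp only [Sum.elim_inr, Sum.elim_inl]
        rw [if_neg hi', zpow_zero]
      · intro h
        exact absurd (Finset.mem_univ i) h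
    rw [h1, h2, h3, h4, ← Finset.prod_mul_distrib]
    have h5 : (∏ p ∈ T \ S, (p : ℚ) ^ a p i) * ∏ p ∈ T \ S,
        (p : ℚ) ^ ((mult x p i - a p i).toNat : ℤ) *
          (p : ℚ) ^ (-((-(mult x p i - a p i)).toNat : ℤ)) =
        ∏ p ∈ T \ S, (p : ℚ) ^ mult x p i := by
      rw [← Finset.prod_mul_distrib]
      refine Finset.prod_congr rfl fun p hp => ?_
      have hp0 : (p : ℚ) ≠ 0 := by exact_mod_cast (hTS p hp).ne_zero
      rw [← zpow_add₀ hp0, ← zpow_add₀ hp0]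
      congr 1
      omega
    rw [← mul_assoc, h5, mul_comm]
    exact Finset.prod_inter_mul_prod_sdiff _ _ _
  refine ⟨fun i => (x i).num.sign, Function.extend f g 1, fun i => Function.extend f (e i) 0,
    fun i => ?_, fun j => ?_, fun i j => ?_, fun i => ?_⟩
  · rcases lt_or_gt_of_ne (Rat.num_ne_zero.2 (hx i)) with h1 | h1
    · simp [Int.sign_eq_neg_one_of_neg h1]
    · simp [Int.sign_eq_one_of_pos h1]
  · by_cases hj : ∃ t, f t = j
    · obtain ⟨t, rfl⟩ := hj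
      rw [f.injective.extend_apply]
      exact hg1 t
    · rw [Function.extend_apply' _ _ _ hj]
      simp only [Pi.one_apply, Nat.cast_one]
      exact ⟨le_refl 1, Real.one_le_exp (by positivity)⟩
  · beta_reduce
    by_cases hj : ∃ t, f t = j
    · obtain ⟨t, rfl⟩ := hj
      rw [f.injective.extend_apply]
      exact hee i t
    · rw [Function.extend_apply' _ _ _ hj]
      simp only [Pi.zero_apply, Int.natAbs_zero, Nat.cast_zero]
      exact (Real.exp_pos _).le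
  · have h1 : ∏ j, ((Function.extend f g 1 j : ℕ) : ℚ) ^ (Function.extend f (e i) 0 j : ℤ) =
        ∏ t, (g t : ℚ) ^ e i t := by
      symm
      refine Fintype.prod_of_injective f f.injective _ _ (fun j hj => ?_) (fun t => ?_)
      · have hj' : ¬ ∃ t, f t = j := hj
        rw [Function.extend_apply' _ _ _ hj', Function.extend_apply' _ _ _ hj']
        simp
      · rw [f.injective.extend_apply, f.injective.extend_apply]
    rw [h1, hpe]
    exact rat_prod (hx i) T hT (fun p hp => hTx (Finset.mem_biUnion.2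
      ⟨i, Finset.mem_univ _, hp⟩))

variable {κ : Type} [Fintype κ] [DecidableEq κ] {n : ℕ}

theorem fixedL (m : κ → Fin n → ℕ) (S : Finset ℕ) (r : ℕ) (c : Fin r → κ → ℤ) (hF : Full m c)
    (hst : FinStab m c) (N D : ℕ) (ε : ℝ) (hε : 0 < ε) :
    ∃ A δ : ℝ, 0 ≤ A ∧ 0 < δ ∧ ∀ Z : ℕ, 2 ≤ Z → ∃ 𝒢 : Finset (κ → ℚ),
      (𝒢.card : ℝ) ≤ A * (Z : ℝ) ^ ε ∧ (∀ G ∈ 𝒢, ∃ y ∈ Zer ℂ m c, ev m G y ≠ 0) ∧
      ∀ x ∈ Zer ℚ m c, ∀ L : ℝ, 0 ≤ L → L ≤ Real.log Z → (GensL N D δ L x ∨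
        ht x ≤ Real.exp (δ * L) ∧ ∃ T : Finset ℕ, (∀ p ∈ T, p.Prime) ∧ bad x ⊆ T ∧
          N1L S T = L ∧ FewMultL S T N D x) →
        ht x ≤ A * (L + 1) ∨ ∃ G ∈ 𝒢, ev m G x = 0 := by
  classical
  obtain ⟨A1, δ1, hδ1, H1⟩ := weakL_gens m r N D ⌈hc c⌉₊ ε hε
  obtain ⟨A2, δ2, hδ2, H2⟩ := weakL_gens m r (N + (n + n) + S.card) (D + S.sup id + 1) ⌈hc c⌉₊ ε hε
  have hc0 := hc_nonneg c
  obtain ⟨A, hA⟩ : ∃ A : ℝ, A = (|A1| + |A2|) * (hc c + 1) + (D + 2) := ⟨_, rfl⟩
  have hA1 := le_abs_self A1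
  have hA2 := le_abs_self A2
  have hA1' := abs_nonneg A1
  have hA2' := abs_nonneg A2
  have hD0 : (0 : ℝ) ≤ (D : ℝ) := Nat.cast_nonneg D
  have hAA : |A1| + |A2| ≤ A := by
    rw [hA]
    nlinarith [mul_nonneg (add_nonneg hA1' hA2') hc0]
  have hA0 : 0 ≤ A := by linarith
  have hDA : (D : ℝ) + 2 ≤ A := by
    rw [hA]
    nlinarith [mul_nonneg (add_nonneg hA1' hA2') (add_nonneg hc0 zero_le_one)]
  have hfin : ∀ B : ℝ, B ≤ |A1| + |A2| → ∀ L : ℝ, 0 ≤ L → B * (L + hc c + 1) ≤ A * (L + 1) := by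
    intro B hB L hL
    have e1 : B * (L + hc c + 1) ≤ (|A1| + |A2|) * (L + hc c + 1) :=
      mul_le_mul_of_nonneg_right hB (by linarith)
    have e2 : (|A1| + |A2|) * (L + hc c + 1) ≤ (|A1| + |A2|) * ((hc c + 1) * (L + 1)) := by
      refine mul_le_mul_of_nonneg_left ?_ (by linarith)
      nlinarith [mul_nonneg hc0 hL]
    have e3 : (|A1| + |A2|) * ((hc c + 1) * (L + 1)) ≤ A * (L + 1) := by
      rw [← mul_assoc]
      refine mul_le_mul_of_nonneg_right ?_ (by linarith)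
      rw [hA]
      linarith
    exact e1.trans (e2.trans e3)
  refine ⟨A, min δ1 (δ2 / 2), hA0, lt_min hδ1 (by positivity), fun Z hZ => ?_⟩
  obtain ⟨𝒢1, a1, a2, a3⟩ := H1 c hF hst Z hZ
  obtain ⟨𝒢2, b1, b2, b3⟩ := H2 c hF hst Z hZ
  have hZp : (0 : ℝ) ≤ (Z : ℝ) ^ ε := by positivity
  refine ⟨𝒢1 ∪ 𝒢2, ?_, fun G hG => ?_, ?_⟩
  · have h1 : ((𝒢1 ∪ 𝒢2).card : ℝ) ≤ (𝒢1.card : ℝ) + 𝒢2.card := by
      exact_mod_cast Finset.card_union_le _ _
    have h2 : A1 * (Z : ℝ) ^ ε ≤ |A1| * (Z : ℝ) ^ ε := mul_le_mul_of_nonneg_right hA1 hZp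
    have h3 : A2 * (Z : ℝ) ^ ε ≤ |A2| * (Z : ℝ) ^ ε := mul_le_mul_of_nonneg_right hA2 hZp
    have h4 : (|A1| + |A2|) * (Z : ℝ) ^ ε ≤ A * (Z : ℝ) ^ ε := mul_le_mul_of_nonneg_right hAA hZp
    linarith
  · rcases Finset.mem_union.1 hG with h | h
    · exact a2 G h
    · exact b2 G h
  · intro x hx L hL hLZ hP
    have e1 : Real.exp (min δ1 (δ2 / 2) * L) ≤ Real.exp (δ1 * L) := Real.exp_le_exp.2
      (mul_le_mul_of_nonneg_right (min_le_left _ _) hL)
    have e2 : Real.exp (min δ1 (δ2 / 2) * L) ≤ Real.exp (δ2 / 2 * L) := Real.exp_le_exp.2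
      (mul_le_mul_of_nonneg_right (min_le_right _ _) hL)
    have hcx : ∀ t : ℝ, 0 ≤ t → hc c ≤ (⌈hc c⌉₊ : ℝ) * Real.exp t := fun t ht =>
      (Nat.le_ceil _).trans (le_mul_of_one_le_right (Nat.cast_nonneg _) (Real.one_le_exp ht))
    rcases hP with ⟨η, b, e, g1, g2, g3, g4⟩ | ⟨h1, T, hT, hTx, hTL, hF2⟩
    · rcases a3 x hx L hL hLZ (hcx _ (by positivity))
        ⟨η, b, e, g1, g2, fun i j => (g3 i j).trans e1, g4⟩ with h | ⟨G, hG, h⟩
      · exact Or.inl (h.trans (hfin A1 (by linarith) L hL))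
      · exact Or.inr ⟨G, Finset.mem_union_left _ hG, h⟩
    · have h1' := h1.trans e2
      rcases lt_or_ge (Real.exp (δ2 / 2 * L)) (D + 2) with h | h
      · left
        exact (h1'.trans h.le).trans (hDA.trans (le_mul_of_one_le_right hA0 (by linarith)))
      · have h4 : 2 * ht x + D ≤ Real.exp (δ2 * L) := by
          have f1 : Real.exp (δ2 * L) = Real.exp (δ2 / 2 * L) * Real.exp (δ2 / 2 * L) := by
            rw [← Real.exp_add]
            congr 1
            ring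
          have f2 : (1 : ℝ) ≤ Real.exp (δ2 / 2 * L) := Real.one_le_exp (by positivity)
          rw [f1]
          calc 2 * ht x + D ≤ 2 * Real.exp (δ2 / 2 * L) + D * Real.exp (δ2 / 2 * L) :=
                add_le_add (by linarith) (le_mul_of_one_le_right hD0 f2)
            _ = (D + 2) * Real.exp (δ2 / 2 * L) := by ring
            _ ≤ _ := mul_le_mul_of_nonneg_right h (Real.exp_pos _).le
        rw [← hTL] at h4
        have h5 := gens_of_multL hx.1 S T hT hTx hF2 h4 hδ2.le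
        rw [hTL] at h5
        rcases b3 x hx L hL hLZ (hcx _ (by positivity)) h5 with h6 | ⟨G, hG, h6⟩
        · exact Or.inl (h6.trans (hfin A2 (by linarith) L hL))
        · exact Or.inr ⟨G, Finset.mem_union_right _ hG, h6⟩

end Pool.Agent.U583.VD
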