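import Mathlib
import Pool.Agent.U583.VD.Few

/-!
# The closure of a set of points of the torus
-/

set_option autoImplicit false

namespace Pool.Agent.U583.VD

open Pool.Agent.U583.TV MvPolynomial

theorem ev_cast {κ : Type} [Fintype κ] {n : ℕ} (m : κ → Fin n → ℕ) (G : κ → ℚ) (x : Fin n → ℚ) :
    ev m G (fun i => (x i : ℂ)) = ((ev m G x : ℚ) : ℂ) := by
  unfold ev
  push_cast
  rfl

theorem zer_cast {κ : Type} [Fintype κ] {n r : ℕ} {m : κ → Fin n → ℕ} {c : Fin r → κ → ℤ}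
    {x : Fin n → ℚ} : (fun i => (x i : ℂ)) ∈ Zer ℂ m c ↔ x ∈ Zer ℚ m c := by
  unfold Zer
  simp only [Set.mem_ofPred_eq, ev_cast]
  norm_cast

/-- the values of a polynomial by its coefficients -/
theorem ev_coeff {n : ℕ} (s : Finset (Fin n →₀ ℕ)) (f : MvPolynomial (Fin n) ℚ)
    (hf : f.support ⊆ s) (x : Fin n → ℂ) :
    ev (fun (k : {t // t ∈ s}) i => k.1 i) (fun k => coeff k.1 f) x = aeval x f := by
  unfold ev
  rw [Finset.sum_coe_sort s (fun k => ((coeff k f : ℚ) : ℂ) * ∏ i, x i ^ k i), aeval_def, eval₂_eq']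
  refine (Finset.sum_subset hf fun k _ hk => ?_).symm
  rw [notMem_support_iff.1 hk]
  simp

/-- the ideal of the polynomials which vanish on `Φ` -/
noncomputable def idl {n : ℕ} (Φ : Set (Fin n → ℂ)) : Ideal (MvPolynomial (Fin n) ℚ) :=
  ⨅ y : Φ, RingHom.ker (aeval y.1 : MvPolynomial (Fin n) ℚ →ₐ[ℚ] ℂ)

theorem mem_idl {n : ℕ} {Φ : Set (Fin n → ℂ)} {f : MvPolynomial (Fin n) ℚ} :
    f ∈ idl Φ ↔ ∀ y ∈ Φ, aeval y f = 0 := by
  unfold idl
  rw [Ideal.mem_iInf]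
  exact ⟨fun h y hy => h ⟨y, hy⟩, fun h y => h y.1 y.2⟩

theorem closure {n : ℕ} (Φ : Set (Fin n → ℂ)) (hΦ : ∀ y ∈ Φ, ∀ i, y i ≠ 0)
    (hst : ∀ a : Fin n → ℤ, a ≠ 0 → ∃ f : MvPolynomial (Fin n) ℚ, (∀ y ∈ Φ, aeval y f = 0) ∧
      ∃ y ∈ Φ, ∃ s : ℂ, s ≠ 0 ∧ aeval (fun i => s ^ a i * y i) f ≠ 0) :
    ∃ (κ : Type) (_ : Fintype κ) (_ : DecidableEq κ) (m : κ → Fin n → ℕ) (r : ℕ)
      (c : Fin r → κ → ℤ), Full m c ∧ FinStab m c ∧
      (∀ x : Fin n → ℚ, (fun i => (x i : ℂ)) ∈ Φ → x ∈ Zer ℚ m c) ∧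
      ∀ G : κ → ℚ, (∃ y ∈ Zer ℂ m c, ev m G y ≠ 0) → ∃ y ∈ Φ, ev m G y ≠ 0 := by
  classical
  obtain ⟨t, ht⟩ := (isNoetherianRing_iff_ideal_fg _).1
    (inferInstance : IsNoetherianRing (MvPolynomial (Fin n) ℚ)) (idl Φ)
  obtain ⟨s, hs⟩ : ∃ s : Finset (Fin n →₀ ℕ), s = t.biUnion support := ⟨_, rfl⟩
  have hsub : ∀ f ∈ t, f.support ⊆ s := fun f hf => by
    rw [hs]
    exact Finset.subset_biUnion_of_mem support hf
  obtain ⟨m, hm⟩ : ∃ m : {t // t ∈ s} → Fin n → ℕ, m = fun k i => k.1 i := ⟨_, rfl⟩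
  obtain ⟨I, hI⟩ : ∃ I : Submodule ℚ ({t // t ∈ s} → ℚ), ∀ G, G ∈ I ↔ ∀ y ∈ Φ, ev m G y = 0 := by
    refine ⟨⨅ y : Φ, LinearMap.ker (evL m y.1), fun G => ?_⟩
    rw [Submodule.mem_iInf]
    exact ⟨fun h y hy => h ⟨y, hy⟩, fun h y => h y.1 y.2⟩
  obtain ⟨f, hf1, hf2', -⟩ := Submodule.exists_fun_fin_finrank_span_eq ℚ (I : Set ({t // t ∈ s} → ℚ))
  have hf2 := hf2'.trans (Submodule.span_eq I)
  have hD := fun i => Pool.Agent.Y902.GN.clear_den (Finset.univ : Finset {t // t ∈ s}) (f i)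
  choose D hD hz using hD
  choose c hc using fun i k => hz i k (Finset.mem_univ k)
  have hsp : Sp c = I := by
    refine le_antisymm (Submodule.span_le.2 ?_) ?_
    · rintro _ ⟨q, rfl⟩
      have h1 : (fun k => (c q k : ℚ)) = (D q : ℚ) • f q := by
        funext k
        rw [hc q k]
        rfl
      show (fun k => (c q k : ℚ)) ∈ I
      rw [h1]
      exact I.smul_mem _ (hf1 q)
    · refine hf2.symm.le.trans (Submodule.span_le.2 ?_)
      rintro _ ⟨q, rfl⟩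
      have hDq : (D q : ℚ) ≠ 0 := by exact_mod_cast (hD q).ne'
      have h1 : f q = (D q : ℚ)⁻¹ • fun k => (c q k : ℚ) := by
        funext k
        simp only [Pi.smul_apply, smul_eq_mul]
        rw [hc q k]
        field_simp
      show f q ∈ Sp c
      rw [h1]
      exact Submodule.smul_mem _ _ (Submodule.subset_span ⟨q, rfl⟩)
  have hΦZ : ∀ y ∈ Φ, y ∈ Zer ℂ m c := fun y hy => ⟨hΦ y hy, fun q => by
    have h1 : (fun k => (c q k : ℚ)) ∈ I := by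
      rw [← hsp]
      exact Submodule.subset_span ⟨q, rfl⟩
    exact (hI _).1 h1 y hy⟩
  -- the points of the closure
  have hcl : ∀ z ∈ Zer ℂ m c, ∀ g ∈ idl Φ, aeval z g = 0 := by
    intro z hz g hg
    have h1 : idl Φ ≤ RingHom.ker (aeval z : MvPolynomial (Fin n) ℚ →ₐ[ℚ] ℂ) := by
      rw [← ht]
      refine Ideal.span_le.2 fun g hg => ?_
      show aeval z g = 0
      have e1 := ev_coeff s g (hsub g hg) z
      rw [← e1, ← hm]
      refine Zer.ev_eq hz ?_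
      rw [hsp, hI]
      intro y hy
      rw [hm, ev_coeff s g (hsub g hg) y]
      exact mem_idl.1 (by rw [← ht]; exact Ideal.subset_span hg) y hy
    exact h1 hg
  refine ⟨{t // t ∈ s}, inferInstance, inferInstance, m, _, c, ?_, ?_, ?_, ?_⟩
  · intro G hG
    rw [hsp, hI]
    exact fun y hy => hG y (hΦZ y hy)
  · intro a ha
    obtain ⟨g, hg, y, hy, w, hw, hne⟩ := hst a ha
    exact ⟨y, hΦZ y hy, w, hw, fun hcon => hne (hcl _ hcon g (mem_idl.2 hg))⟩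
  · intro x hx
    exact zer_cast.1 (hΦZ _ hx)
  · rintro G ⟨y, hy, hne⟩
    by_contra hcon
    push Not at hcon
    refine hne (Zer.ev_eq hy ?_)
    rw [hsp, hI]
    exact hcon

end Pool.Agent.U583.VD
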