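import Mathlib
import Pool.Agent.U583.VD.Cl

/-!
# Heights and forms without common zero
-/

set_option autoImplicit false

namespace Pool.Agent.U583.VD

open MvPolynomial

variable {σ : Type} [Fintype σ] {n s d : ℕ}

theorem hom_scale {R : Type} [CommRing R] {f : MvPolynomial σ ℤ} {d : ℕ} (hf : f.IsHomogeneous d)
    (t : R) (y : σ → R) : aeval (fun j => t * y j) f = t ^ d * aeval y f := by
  rw [aeval_def, aeval_def, eval₂_eq', eval₂_eq', Finset.mul_sum]
  refine Finset.sum_congr rfl fun k hk => ?_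
  have h1 : ∑ j, k j = d := by
    have := hf (mem_support_iff.1 hk)
    rw [← this, Finsupp.weight_apply, Finsupp.sum_fintype] <;> simp
  simp only [mul_pow, Finset.prod_mul_distrib, Finset.prod_pow_eq_pow_sum, h1]
  ring

theorem cont_aeval (f : MvPolynomial σ ℤ) : Continuous fun y : σ → ℝ => aeval y f := by
  have : (fun y : σ → ℝ => aeval y f) = fun y => ∑ k ∈ f.support,
      (algebraMap ℤ ℝ) (coeff k f) * ∏ j, y j ^ k j := by
    funext y
    rw [aeval_def, eval₂_eq']
  rw [this]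
  fun_prop

theorem upper {f : MvPolynomial σ ℤ} (hf : f.IsHomogeneous d) :
    ∃ C : ℝ, 0 ≤ C ∧ ∀ y : σ → ℝ, |aeval y f| ≤ C * ‖y‖ ^ d := by
  refine ⟨∑ k ∈ f.support, |((coeff k f : ℤ) : ℝ)|, Finset.sum_nonneg fun _ _ => abs_nonneg _,
    fun y => ?_⟩
  rw [aeval_def, eval₂_eq', Finset.sum_mul]
  refine (Finset.abs_sum_le_sum_abs _ _).trans (Finset.sum_le_sum fun k hk => ?_)
  have h1 : ∑ j, k j = d := by
    have := hf (mem_support_iff.1 hk)
    rw [← this, Finsupp.weight_apply, Finsupp.sum_fintype] <;> simp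
  rw [abs_mul]
  refine mul_le_mul_of_nonneg_left ?_ (abs_nonneg _)
  rw [Finset.abs_prod, ← h1, ← Finset.prod_pow_eq_pow_sum]
  refine Finset.prod_le_prod (fun _ _ => abs_nonneg _) fun j _ => ?_
  rw [abs_pow]
  exact pow_le_pow_left₀ (abs_nonneg _) (norm_le_pi_norm y j) _

/-- forms of the same degree without common zero on a projective variety -/
theorem arch {F : Fin s → MvPolynomial σ ℤ} {g : Fin (n + 1) → MvPolynomial σ ℤ} (hd : 0 < d)
    (hF : ∀ q, ∃ e, (F q).IsHomogeneous e) (hg : ∀ i, (g i).IsHomogeneous d)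
    (hb : ∀ y : σ → ℂ, (∀ q, aeval y (F q) = 0) → (∀ i, aeval y (g i) = 0) → y = 0) :
    ∃ c : ℝ, 0 < c ∧ ∀ y : σ → ℝ, (∀ q, aeval y (F q) = 0) →
      c * ‖y‖ ^ d ≤ ∑ i, |aeval y (g i)| := by
  obtain ⟨K, hK⟩ : ∃ K : Set (σ → ℝ), K = Metric.sphere 0 1 ∩ {y | ∀ q, aeval y (F q) = 0} :=
    ⟨_, rfl⟩
  have hKc : IsCompact K := by
    rw [hK]
    refine (isCompact_sphere 0 1).inter_right ?_
    have : {y : σ → ℝ | ∀ q, aeval y (F q) = 0} = ⋂ q, {y | aeval y (F q) = 0} := by
      ext y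
      simp
    rw [this]
    exact isClosed_iInter fun q => isClosed_eq (cont_aeval (F q)) continuous_const
  have hcont : Continuous fun y : σ → ℝ => ∑ i, |aeval y (g i)| :=
    continuous_finset_sum _ fun i _ => (cont_aeval (g i)).abs
  obtain ⟨c, hc, hcK⟩ : ∃ c : ℝ, 0 < c ∧ ∀ y ∈ K, c ≤ ∑ i, |aeval y (g i)| := by
    rcases K.eq_empty_or_nonempty with h | h
    · exact ⟨1, one_pos, by simp [h]⟩
    · obtain ⟨y, hy, hmin⟩ := hKc.exists_isMinOn h hcont.continuousOn
      refine ⟨_, ?_, hmin⟩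
      rw [hK] at hy
      rcases (Finset.sum_nonneg fun (i : Fin (n + 1)) (_ : i ∈ Finset.univ) =>
        abs_nonneg (aeval y (g i))).lt_or_eq with h1 | h1
      · exact h1
      · exfalso
        have h2 := (Finset.sum_eq_zero_iff_of_nonneg fun (i : Fin (n + 1)) _ =>
          abs_nonneg (aeval y (g i))).1 h1.symm
        have h3 := hb (fun j => (y j : ℂ)) (fun q => by
          have := aeval_algebraMap_apply (B := ℂ) y (F q)
          rw [hy.2 q, map_zero] at this
          exact this) (fun i => by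
          have := aeval_algebraMap_apply (B := ℂ) y (g i)
          rw [abs_eq_zero.1 (h2 i (Finset.mem_univ i)), map_zero] at this
          exact this)
        have h4 : y = 0 := by
          funext j
          have := congrFun h3 j
          simpa using this
        have h5 : ‖y‖ = 1 := by simpa using hy.1
        rw [h4, norm_zero] at h5
        exact zero_ne_one h5
  refine ⟨c, hc, fun y hy => ?_⟩
  by_cases h0 : y = 0
  · rw [h0, norm_zero, zero_pow hd.ne', mul_zero]
    exact Finset.sum_nonneg fun _ _ => abs_nonneg _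
  · have hn : 0 < ‖y‖ := norm_pos_iff.2 h0
    obtain ⟨u, hu⟩ : ∃ u : σ → ℝ, u = fun j => ‖y‖⁻¹ * y j := ⟨_, rfl⟩
    have hyu : y = fun j => ‖y‖ * u j := by
      funext j
      rw [hu]
      field_simp
    have huK : u ∈ K := by
      rw [hK]
      refine ⟨?_, fun q => ?_⟩
      · have : u = ‖y‖⁻¹ • y := by
          rw [hu]
          rfl
        rw [mem_sphere_zero_iff_norm, this, norm_smul, norm_inv, norm_norm]
        exact inv_mul_cancel₀ hn.ne'
      · obtain ⟨e, he⟩ := hF q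
        rw [hu, hom_scale he, hy q, mul_zero]
    have h1 := hcK u huK
    have h2 : ∀ i, |aeval y (g i)| = ‖y‖ ^ d * |aeval u (g i)| := fun i => by
      have := hom_scale (hg i) ‖y‖ u
      rw [← hyu] at this
      rw [this, abs_mul, abs_of_nonneg (pow_nonneg hn.le d)]
    simp only [h2]
    rw [← Finset.mul_sum, mul_comm]
    exact mul_le_mul_of_nonneg_left h1 (pow_nonneg hn.le d)

/-- the coordinates have no common prime factor -/
def Prim (y : σ → ℤ) : Prop := ∀ p : ℕ, p.Prime → ∃ j, ¬ (p : ℤ) ∣ y j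

theorem Prim.span {y : σ → ℤ} (hy : Prim y) : Ideal.span (Set.range y) = ⊤ := by
  obtain ⟨a, ha⟩ := (IsPrincipalIdealRing.principal (Ideal.span (Set.range y))).principal
  have ha' : Ideal.span (Set.range y) = Ideal.span {a} := ha
  have hdv : ∀ j, a ∣ y j := fun j => by
    have h1 : y j ∈ Ideal.span (Set.range y) := Ideal.subset_span ⟨j, rfl⟩
    rw [ha'] at h1
    exact Ideal.mem_span_singleton.1 h1
  have hu : a.natAbs = 1 := by
    by_contra h1
    obtain ⟨p, hp, hpa⟩ := Nat.exists_prime_and_dvd h1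
    obtain ⟨j, hj⟩ := hy p hp
    exact hj ((Int.natCast_dvd.2 hpa).trans (hdv j))
  rw [ha', Ideal.span_singleton_eq_top]
  exact Int.isUnit_iff_natAbs_eq.2 hu

theorem int_val (f : MvPolynomial σ ℚ) : ∃ D : ℕ, 0 < D ∧ ∀ y : σ → ℤ, ∃ z : ℤ,
    (D : ℚ) * aeval (fun j => (y j : ℚ)) f = z := by
  induction f using MvPolynomial.induction_on with
  | C a =>
    refine ⟨a.den, a.pos, fun y => ⟨a.num, ?_⟩⟩
    rw [aeval_C]
    exact Rat.den_mul_eq_num a
  | add p q hp hq =>
    obtain ⟨D, hD, h1⟩ := hp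
    obtain ⟨E, hE, h2⟩ := hq
    refine ⟨D * E, Nat.mul_pos hD hE, fun y => ?_⟩
    obtain ⟨z, hz⟩ := h1 y
    obtain ⟨w, hw⟩ := h2 y
    refine ⟨E * z + D * w, ?_⟩
    push_cast
    rw [map_add, ← hz, ← hw]
    ring
  | mul_X p j hp =>
    obtain ⟨D, hD, h1⟩ := hp
    refine ⟨D, hD, fun y => ?_⟩
    obtain ⟨z, hz⟩ := h1 y
    refine ⟨z * y j, ?_⟩
    rw [map_mul, aeval_X, ← mul_assoc, hz]
    push_cast
    rfl

theorem gcd_bound {F : Fin s → MvPolynomial σ ℤ} {g : Fin (n + 1) → MvPolynomial σ ℤ}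
    (hb : ∀ y : σ → ℂ, (∀ q, aeval y (F q) = 0) → (∀ i, aeval y (g i) = 0) → y = 0) :
    ∃ D : ℕ, 0 < D ∧ ∀ y : σ → ℤ, (∀ q, aeval y (F q) = 0) → Prim y →
      ∀ G : ℤ, (∀ i, G ∣ aeval y (g i)) → G ∣ (D : ℤ) := by
  classical
  have hmap : ∀ (f : MvPolynomial σ ℤ) (y : σ → ℂ), aeval y (map (Int.castRingHom ℚ) f) =
      aeval y f := fun f y => by
    rw [aeval_def, aeval_def, eval₂_map]
    congr 1
  have hmapQ : ∀ (f : MvPolynomial σ ℤ) (y : σ → ℤ), aeval (fun j => (y j : ℚ))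
      (map (Int.castRingHom ℚ) f) = ((aeval y f : ℤ) : ℚ) := fun f y => by
    have h1 : aeval (fun j => (y j : ℚ)) (map (Int.castRingHom ℚ) f) =
        aeval (fun j => (y j : ℚ)) f := by
      rw [aeval_def, aeval_def, eval₂_map]
      congr 1
    rw [h1]
    exact aeval_algebraMap_apply (B := ℚ) y f
  have h1 : ∀ j : σ, ∃ (D e : ℕ), 0 < D ∧ ∀ y : σ → ℤ, (∀ q, aeval y (F q) = 0) →
      ∀ G : ℤ, (∀ i, G ∣ aeval y (g i)) → G ∣ (D : ℤ) * y j ^ e := by
    intro j
    obtain ⟨I, hI⟩ : ∃ I : Ideal (MvPolynomial σ ℚ), I =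
        Ideal.span (Set.range fun q => map (Int.castRingHom ℚ) (F q)) ⊔
        Ideal.span (Set.range fun i => map (Int.castRingHom ℚ) (g i)) := ⟨_, rfl⟩
    have h2 : (X j : MvPolynomial σ ℚ) ∈ I.radical := by
      rw [← vanishingIdeal_zeroLocus_eq_radical (K := ℂ) I, mem_vanishingIdeal_iff]
      intro y hy
      rw [mem_zeroLocus_iff] at hy
      have h3 := hb y (fun q => by
        rw [← hmap]
        refine hy _ ?_
        rw [hI]
        exact Ideal.mem_sup_left (Ideal.subset_span ⟨q, rfl⟩)) (fun i => by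
        rw [← hmap]
        refine hy _ ?_
        rw [hI]
        exact Ideal.mem_sup_right (Ideal.subset_span ⟨i, rfl⟩))
      rw [aeval_X, h3, Pi.zero_apply]
    obtain ⟨e, he⟩ := h2
    rw [hI] at he
    obtain ⟨a, ha, b, hb', hab⟩ := Submodule.mem_sup.1 he
    obtain ⟨A, hA⟩ := Ideal.mem_span_range_iff_exists_fun.1 ha
    obtain ⟨B, hB⟩ := Ideal.mem_span_range_iff_exists_fun.1 hb'
    choose D hD hDz using fun i => int_val (B i)
    refine ⟨∏ i, D i, e, Finset.prod_pos fun i _ => hD i, fun y hy G hG => ?_⟩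
    choose z hz using fun i => hDz i y
    have h4 : (((∏ i, D i : ℕ) : ℤ) * y j ^ e : ℤ) =
        ∑ i, ((∏ i' ∈ Finset.univ.erase i, D i' : ℕ) : ℤ) * z i * aeval y (g i) := by
      have h5 : ((y j : ℚ)) ^ e = ∑ i, aeval (fun j => (y j : ℚ)) (B i) *
          ((aeval y (g i) : ℤ) : ℚ) := by
        have h6 := congrArg (aeval (fun j => (y j : ℚ))) hab
        rw [← hA, ← hB, map_add, map_sum, map_sum, map_pow, aeval_X] at h6
        rw [← h6]
        have h7 : ∑ q, aeval (fun j => (y j : ℚ)) (A q * map (Int.castRingHom ℚ) (F q)) = 0 := by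
          refine Finset.sum_eq_zero fun q _ => ?_
          rw [map_mul, hmapQ, hy q, Int.cast_zero, mul_zero]
        rw [h7, zero_add]
        refine Finset.sum_congr rfl fun i _ => ?_
        rw [map_mul, hmapQ]
      have h8 : (((((∏ i, D i : ℕ) : ℤ) * y j ^ e : ℤ)) : ℚ) =
          ((∑ i, ((∏ i' ∈ Finset.univ.erase i, D i' : ℕ) : ℤ) * z i * aeval y (g i) : ℤ) : ℚ) := by
        push_cast
        rw [h5, Finset.mul_sum]
        refine Finset.sum_congr rfl fun i _ => ?_
        rw [← hz i, ← Finset.mul_prod_erase Finset.univ (fun i => (D i : ℚ)) (Finset.mem_univ i)]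
        ring
      exact_mod_cast h8
    rw [h4]
    exact Finset.dvd_sum fun i _ => Dvd.dvd.mul_left (hG i) _
  choose D e hD hDe using h1
  refine ⟨∏ j, D j, Finset.prod_pos fun j _ => hD j, fun y hy hp G hG => ?_⟩
  have h2 : ∀ j, G ∣ ((∏ j, D j : ℕ) : ℤ) * y j ^ (∑ j, e j) := fun j => by
    refine (hDe j y hy G hG).trans (mul_dvd_mul ?_ (pow_dvd_pow _ ?_))
    · exact_mod_cast Finset.dvd_prod_of_mem D (Finset.mem_univ j)
    · exact Finset.single_le_sum (f := e) (fun _ _ => Nat.zero_le _) (Finset.mem_univ j)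
  have h3 := Ideal.span_pow_eq_top _ hp.span (∑ j, e j)
  have h4 : Ideal.span (Set.range fun j => y j ^ (∑ j, e j)) = ⊤ := by
    rw [← h3]
    congr 1
    ext z
    simp
  have h5 : (1 : ℤ) ∈ Ideal.span (Set.range fun j => y j ^ (∑ j, e j)) := by
    rw [h4]
    exact Submodule.mem_top
  obtain ⟨c, hc⟩ := Ideal.mem_span_range_iff_exists_fun.1 h5
  have h6 : ((∏ j, D j : ℕ) : ℤ) = ∑ j, c j * (((∏ j, D j : ℕ) : ℤ) * y j ^ (∑ j, e j)) := by
    calc ((∏ j, D j : ℕ) : ℤ) = ((∏ j, D j : ℕ) : ℤ) * 1 := (mul_one _).symm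
      _ = _ := by
        rw [← hc, Finset.mul_sum]
        refine Finset.sum_congr rfl fun j _ => ?_
        ring
  rw [h6]
  exact Finset.dvd_sum fun j _ => Dvd.dvd.mul_left (h2 j) _

end Pool.Agent.U583.VD
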