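import Mathlib
import Pool.Agent.U583.VD.Ht

/-!
# Comparison of the heights
-/

set_option autoImplicit false

namespace Pool.Agent.U583.VD

open MvPolynomial Pool.Agent.U583.TV

variable {σ : Type} [Fintype σ] {n s d : ℕ}

/-- the quotients of the other members of `u` by the first -/
def quo (u : Fin (n + 1) → ℤ) : Fin n → ℚ := fun i => (u i.succ : ℚ) / (u 0 : ℚ)

theorem exp_ht (x : Fin n → ℚ) :
    Real.exp (ht x) = ((∏ i, max (x i).num.natAbs (x i).den : ℕ) : ℝ) := by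
  unfold ht
  rw [Real.exp_sum]
  push_cast
  refine Finset.prod_congr rfl fun i _ => ?_
  rw [Real.exp_log]
  have h1 : 0 < max (x i).num.natAbs (x i).den := lt_max_of_lt_right (x i).pos
  exact_mod_cast h1

theorem ratio {u : Fin (n + 1) → ℤ} (hu : ∀ i, u i ≠ 0) {D : ℕ}
    (hD : 0 < D) (hG : ∀ G : ℤ, (∀ i, G ∣ u i) → G ∣ (D : ℤ)) (i : Fin (n + 1)) :
    ((u i).natAbs : ℝ) ≤ D * Real.exp (ht (quo u)) := by
  classical
  rw [exp_ht]
  obtain ⟨x, hx⟩ : ∃ x, x = quo u := ⟨_, rfl⟩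
  rw [← hx]
  have hxj : ∀ j, u j.succ * ((x j).den : ℤ) = u 0 * (x j).num := fun j => by
    have h1 : (x j) = (u j.succ : ℚ) / (u 0 : ℚ) := by rw [hx]; rfl
    have h0 : (u 0 : ℚ) ≠ 0 := by exact_mod_cast hu 0
    have h2 : ((x j).den : ℚ) ≠ 0 := by exact_mod_cast (x j).den_nz
    have h3 : ((x j).num : ℚ) / ((x j).den : ℚ) = (u j.succ : ℚ) / (u 0 : ℚ) := by
      rw [← h1]
      exact Rat.num_div_den _
    rw [div_eq_div_iff h2 h0] at h3
    have h4 : ((x j).num * u 0 : ℤ) = u j.succ * ((x j).den : ℤ) := by exact_mod_cast h3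
    rw [← h4, mul_comm]
  obtain ⟨P, hP⟩ : ∃ P : ℕ, P = ∏ j, (x j).den := ⟨_, rfl⟩
  have hP0 : 0 < P := by
    rw [hP]
    exact Finset.prod_pos fun j _ => (x j).pos
  have hPj : ∀ j, P = (x j).den * ∏ j' ∈ Finset.univ.erase j, (x j').den := fun j => by
    rw [hP]
    exact (Finset.mul_prod_erase _ _ (Finset.mem_univ j)).symm
  have hdv : ∀ i, u 0 ∣ (P : ℤ) * u i := by
    intro i
    refine Fin.cases ?_ (fun j => ?_) i
    · exact dvd_mul_left _ _
    · rw [hPj j]
      push_cast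
      refine ⟨(x j).num * ∏ j' ∈ Finset.univ.erase j, ((x j').den : ℤ), ?_⟩
      calc ((x j).den : ℤ) * (∏ j' ∈ Finset.univ.erase j, ((x j').den : ℤ)) * u j.succ =
            (u j.succ * ((x j).den : ℤ)) * ∏ j' ∈ Finset.univ.erase j, ((x j').den : ℤ) := by ring
        _ = _ := by rw [hxj j]; ring
  -- the first one is small
  obtain ⟨c, hc⟩ : ∃ c : ℤ, c = (Int.gcd (u 0) P : ℤ) := ⟨_, rfl⟩
  have hc0 : c ≠ 0 := by
    rw [hc]
    have : Int.gcd (u 0) P ≠ 0 := by
      rw [Ne, Int.gcd_eq_zero_iff]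
      exact fun h => hu 0 h.1
    exact_mod_cast this
  obtain ⟨u', hu'⟩ : c ∣ u 0 := by
    rw [hc]
    exact Int.gcd_dvd_left _ _
  obtain ⟨P', hP'⟩ : c ∣ (P : ℤ) := by
    rw [hc]
    exact Int.gcd_dvd_right _ _
  have hco : IsCoprime u' P' := by
    have h1 := Int.gcd_eq_gcd_ab (u 0) P
    rw [← hc] at h1
    refine ⟨Int.gcdA (u 0) P, Int.gcdB (u 0) P, ?_⟩
    have h2 : c * (Int.gcdA (u 0) P * u' + Int.gcdB (u 0) P * P') = c * 1 := by
      calc c * (Int.gcdA (u 0) P * u' + Int.gcdB (u 0) P * P') =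
            (c * u') * Int.gcdA (u 0) P + (c * P') * Int.gcdB (u 0) P := by ring
        _ = c * 1 := by rw [← hu', ← hP', mul_one, ← h1]
    exact mul_left_cancel₀ hc0 h2
  have hu'D : u' ∣ (D : ℤ) := hG u' fun i => by
    have h1 := hdv i
    rw [hu', hP', mul_assoc] at h1
    exact hco.dvd_of_dvd_mul_left ((mul_dvd_mul_iff_left hc0).1 h1)
  have hu0 : (u 0).natAbs ≤ D * P := by
    have h1 : u 0 ∣ (D * P : ℤ) := by
      rw [hu', mul_comm (D : ℤ)]
      exact mul_dvd_mul ⟨P', hP'⟩ hu'D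
    have h2 : (u 0).natAbs ∣ D * P := by
      have := Int.natAbs_dvd_natAbs.2 h1
      rwa [Int.natAbs_mul, Int.natAbs_natCast, Int.natAbs_natCast] at this
    exact Nat.le_of_dvd (Nat.mul_pos hD hP0) h2
  have key : (u i).natAbs ≤ D * ∏ i, max (x i).num.natAbs (x i).den := by
    refine Fin.cases ?_ (fun j => ?_) i
    · refine hu0.trans (Nat.mul_le_mul_left _ ?_)
      rw [hP]
      exact Finset.prod_le_prod' fun j _ => le_max_right _ _
    · have h1 : (u j.succ).natAbs * (x j).den = (u 0).natAbs * (x j).num.natAbs := by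
        have := congrArg Int.natAbs (hxj j)
        rwa [Int.natAbs_mul, Int.natAbs_mul, Int.natAbs_natCast] at this
      have h2 : (u j.succ).natAbs * (x j).den ≤ (D * ((∏ j' ∈ Finset.univ.erase j, (x j').den) *
          (x j).num.natAbs)) * (x j).den := by
        rw [h1]
        refine (Nat.mul_le_mul_right _ hu0).trans (le_of_eq ?_)
        rw [hPj j]
        ring
      refine (Nat.le_of_mul_le_mul_right h2 (x j).pos).trans (Nat.mul_le_mul_left _ ?_)
      rw [← Finset.mul_prod_erase _ _ (Finset.mem_univ j), mul_comm]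
      exact Nat.mul_le_mul (le_max_left _ _) (Finset.prod_le_prod' fun j _ => le_max_right _ _)
  exact_mod_cast key

theorem abs_cast (z : ℤ) : |(z : ℝ)| = (z.natAbs : ℝ) := by
  rw [Nat.cast_natAbs, Int.cast_abs]

/-- the height of a point of projective space with the coprime integral coordinates `y` -/
noncomputable def hP (y : σ → ℤ) : ℝ := Real.log ((Finset.univ.sup fun j => (y j).natAbs : ℕ) : ℝ)

theorem hP_nonneg (y : σ → ℤ) : 0 ≤ hP y := Real.log_natCast_nonneg _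

theorem norm_eq {y : σ → ℤ} (hy : Prim y) :
    ‖fun j => (y j : ℝ)‖ = ((Finset.univ.sup fun j => (y j).natAbs : ℕ) : ℝ) ∧
      1 ≤ (Finset.univ.sup fun j => (y j).natAbs) := by
  obtain ⟨j0, hj0⟩ := hy 2 Nat.prime_two
  haveI : Nonempty σ := ⟨j0⟩
  refine ⟨le_antisymm ?_ ?_, ?_⟩
  · rw [pi_norm_le_iff_of_nonneg (Nat.cast_nonneg _)]
    intro j
    rw [Real.norm_eq_abs, abs_cast]
    exact_mod_cast Finset.le_sup (f := fun j => (y j).natAbs) (Finset.mem_univ j)
  · obtain ⟨j, -, hj⟩ := Finset.exists_mem_eq_sup Finset.univ Finset.univ_nonempty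
      fun j => (y j).natAbs
    rw [hj]
    have h1 := norm_le_pi_norm (fun j => (y j : ℝ)) j
    rw [Real.norm_eq_abs, abs_cast] at h1
    exact h1
  · have h1 : 1 ≤ (y j0).natAbs := by
      rcases Nat.eq_zero_or_pos (y j0).natAbs with h | h
      · exact absurd (by rw [Int.natAbs_eq_zero.1 h]; exact dvd_zero _) hj0
      · exact h
    exact h1.trans (Finset.le_sup (f := fun j => (y j).natAbs) (Finset.mem_univ j0))

theorem cast_aeval (f : MvPolynomial σ ℤ) (y : σ → ℤ) :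
    aeval (fun j => (y j : ℝ)) f = ((aeval y f : ℤ) : ℝ) :=
  aeval_algebraMap_apply (B := ℝ) y f

theorem ht_lower {F : Fin s → MvPolynomial σ ℤ} {g : Fin (n + 1) → MvPolynomial σ ℤ} (hd : 0 < d)
    (hF : ∀ q, ∃ e, (F q).IsHomogeneous e) (hg : ∀ i, (g i).IsHomogeneous d)
    (hb : ∀ y : σ → ℂ, (∀ q, aeval y (F q) = 0) → (∀ i, aeval y (g i) = 0) → y = 0) :
    ∃ C : ℝ, 0 ≤ C ∧ ∀ y : σ → ℤ, (∀ q, aeval y (F q) = 0) → Prim y →
      (∀ i, aeval y (g i) ≠ 0) → hP y ≤ ht (quo fun i => aeval y (g i)) + C := by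
  obtain ⟨c, hc, h1⟩ := arch hd hF hg hb
  obtain ⟨D, hD, h2⟩ := gcd_bound (g := g) hb
  refine ⟨|Real.log (((n : ℝ) + 1) * D / c)|, abs_nonneg _, fun y hy hp hgy => ?_⟩
  obtain ⟨e1, e2⟩ := norm_eq hp
  have e3 := h1 (fun j => (y j : ℝ)) (fun q => by rw [cast_aeval, hy q, Int.cast_zero])
  have e4 : ∑ i, |aeval (fun j => (y j : ℝ)) (g i)| ≤
      ((n : ℝ) + 1) * (D * Real.exp (ht (quo fun i => aeval y (g i)))) := by
    calc ∑ i, |aeval (fun j => (y j : ℝ)) (g i)| ≤ ∑ _i : Fin (n + 1),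
          (D * Real.exp (ht (quo fun i => aeval y (g i)))) := by
          refine Finset.sum_le_sum fun i _ => ?_
          have := ratio hgy hD (h2 y hy hp) i
          rw [cast_aeval, abs_cast]
          exact this
      _ = _ := by simp
  rw [e1] at e3
  have hM : (1 : ℝ) ≤ ((Finset.univ.sup fun j => (y j).natAbs : ℕ) : ℝ) := by exact_mod_cast e2
  obtain ⟨M, hM'⟩ : ∃ M : ℝ, M = ((Finset.univ.sup fun j => (y j).natAbs : ℕ) : ℝ) := ⟨_, rfl⟩
  have hDr : (0 : ℝ) < (D : ℝ) := by exact_mod_cast hD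
  unfold hP
  rw [← hM'] at hM e3 ⊢
  have e5 : M ≤ ((n : ℝ) + 1) * D / c * Real.exp (ht (quo fun i => aeval y (g i))) := by
    have e6 : M ≤ M ^ d := le_self_pow₀ hM hd.ne'
    have e7 : c * M ≤ ((n : ℝ) + 1) * (D * Real.exp (ht (quo fun i => aeval y (g i)))) :=
      (mul_le_mul_of_nonneg_left e6 hc.le).trans (e3.trans e4)
    rw [div_mul_eq_mul_div, le_div_iff₀ hc]
    linarith
  have e6 := Real.log_le_log (by linarith) e5
  rw [Real.log_mul (by positivity) (Real.exp_pos _).ne', Real.log_exp] at e6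
  have e7 := le_abs_self (Real.log (((n : ℝ) + 1) * D / c))
  linarith

theorem ht_upper {g : Fin (n + 1) → MvPolynomial σ ℤ} (hg : ∀ i, (g i).IsHomogeneous d) :
    ∃ C : ℝ, 0 ≤ C ∧ ∀ y : σ → ℤ, Prim y → (∀ i, aeval y (g i) ≠ 0) →
      ht (quo fun i => aeval y (g i)) ≤ C * (hP y + 1) := by
  choose B hB hBy using fun i => upper (hg i)
  obtain ⟨C, hC⟩ : ∃ C : ℝ, C = 1 + ∑ i, B i := ⟨_, rfl⟩
  have hC1 : 1 ≤ C := by
    have := Finset.sum_nonneg fun (i : Fin (n + 1)) (_ : i ∈ Finset.univ) => hB i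
    linarith
  have hBC : ∀ i, B i ≤ C := fun i => by
    have := Finset.single_le_sum (f := B) (fun i _ => hB i) (Finset.mem_univ i)
    linarith
  have hlC : 0 ≤ Real.log C := Real.log_nonneg hC1
  refine ⟨n * (Real.log C + d), by positivity, fun y hp hgy => ?_⟩
  obtain ⟨e1, e2⟩ := norm_eq hp
  have hM : (1 : ℝ) ≤ ((Finset.univ.sup fun j => (y j).natAbs : ℕ) : ℝ) := by exact_mod_cast e2
  have hh := hP_nonneg y
  have h1 : ∀ i, Real.log ((aeval y (g i) : ℤ).natAbs : ℝ) ≤ Real.log C + d * hP y := fun i => by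
    have h2 := hBy i (fun j => (y j : ℝ))
    rw [cast_aeval, abs_cast, e1] at h2
    have h3 : (0 : ℝ) < ((aeval y (g i) : ℤ).natAbs : ℝ) := by
      exact_mod_cast Int.natAbs_pos.2 (hgy i)
    have h4 : ((aeval y (g i) : ℤ).natAbs : ℝ) ≤
        C * ((Finset.univ.sup fun j => (y j).natAbs : ℕ) : ℝ) ^ d :=
      h2.trans (mul_le_mul_of_nonneg_right (hBC i) (by positivity))
    have h5 := Real.log_le_log h3 h4
    rw [Real.log_mul (by positivity) (by positivity), Real.log_pow] at h5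
    exact h5
  have h2 : ∀ j : Fin n, Real.log (max (quo (fun i => aeval y (g i)) j).num.natAbs
      (quo (fun i => aeval y (g i)) j).den : ℕ) ≤ Real.log C + d * hP y := by
    intro j
    have hq : quo (fun i => aeval y (g i)) j =
        Rat.divInt (aeval y (g j.succ)) (aeval y (g 0)) := by
      rw [Rat.divInt_eq_div]
      rfl
    have hnum : (quo (fun i => aeval y (g i)) j).num.natAbs ≤ (aeval y (g j.succ) : ℤ).natAbs := by
      refine Nat.le_of_dvd (Int.natAbs_pos.2 (hgy _)) (Int.natAbs_dvd_natAbs.2 ?_)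
      rw [hq]
      exact Rat.num_dvd _ (hgy 0)
    have hden : (quo (fun i => aeval y (g i)) j).den ≤ (aeval y (g 0) : ℤ).natAbs := by
      refine Nat.le_of_dvd (Int.natAbs_pos.2 (hgy _)) ?_
      have h3 : (((quo (fun i => aeval y (g i)) j).den : ℤ)) ∣ aeval y (g 0) := by
        rw [hq]
        exact Rat.den_dvd _ _
      have := Int.natAbs_dvd_natAbs.2 h3
      rwa [Int.natAbs_natCast] at this
    have h3 : 0 < max (quo (fun i => aeval y (g i)) j).num.natAbs
      (quo (fun i => aeval y (g i)) j).den := lt_max_of_lt_right (Rat.pos _)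
    rcases le_total (aeval y (g j.succ) : ℤ).natAbs (aeval y (g 0) : ℤ).natAbs with h | h
    · refine le_trans (Real.log_le_log (by exact_mod_cast h3) ?_) (h1 0)
      exact_mod_cast max_le (hnum.trans h) hden
    · refine le_trans (Real.log_le_log (by exact_mod_cast h3) ?_) (h1 j.succ)
      exact_mod_cast max_le hnum (hden.trans h)
  calc ht (quo fun i => aeval y (g i)) ≤ ∑ _j : Fin n, (Real.log C + d * hP y) :=
        Finset.sum_le_sum fun j _ => h2 j
    _ = n * (Real.log C + d * hP y) := by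
        rw [Finset.sum_const, Finset.card_univ, Fintype.card_fin, nsmul_eq_mul]
    _ ≤ n * ((Real.log C + d) * (hP y + 1)) := by
        refine mul_le_mul_of_nonneg_left ?_ (Nat.cast_nonneg n)
        have h3 : (0 : ℝ) ≤ (d : ℝ) := Nat.cast_nonneg d
        nlinarith [mul_nonneg hlC hh]
    _ = _ := by ring

end Pool.Agent.U583.VD
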