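import Mathlib
import Pool.Agent.U583.VD.Cmp

/-!
# The inequality for integral vectors
-/

set_option autoImplicit false

namespace Pool.Agent.U583.VD

open MvPolynomial Pool.Agent.U583.TV

variable {n : ℕ}

/-- the logarithm of the greatest absolute value -/
noncomputable def hU (u : Fin (n + 1) → ℤ) : ℝ :=
  Real.log ((Finset.univ.sup fun i => (u i).natAbs : ℕ) : ℝ)

/-- the primes which divide one of the `u i` -/
def badU (u : Fin (n + 1) → ℤ) : Finset ℕ := (∏ i, u i).natAbs.primeFactors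

/-- the sum of `log p` over the primes `p` outside of `S` which divide one of the `u i` -/
noncomputable def N1U (S : Finset ℕ) (u : Fin (n + 1) → ℤ) : ℝ := ∑ p ∈ badU u \ S, Real.log p

/-- up to differences at most `k`, the vector of the `p`-adic valuations of the `u i` takes at most `N` values
for the primes `p` outside of `S` which divide one of the `u i` -/
def FewU (S : Finset ℕ) (N k : ℕ) (u : Fin (n + 1) → ℤ) : Prop :=
  ∃ W : Finset (Fin (n + 1) → ℤ), W.card ≤ N ∧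
    ∀ p ∈ badU u \ S, ∃ w ∈ W, ∀ i, |(padicValInt p (u i) : ℤ) - w i| ≤ (k : ℤ)

/-- the `u i` are up to sign products of powers of the same `N` integers `1 ≤ b j ≤ exp (k (N1 + 1))`, with exponents at
most `exp (δ N1)` -/
def GensU (S : Finset ℕ) (N k : ℕ) (δ : ℝ) (u : Fin (n + 1) → ℤ) : Prop :=
  ∃ (η : Fin (n + 1) → ℤ) (b : Fin N → ℕ) (e : Fin (n + 1) → Fin N → ℕ), (∀ i, |η i| = 1) ∧
    (∀ j, 1 ≤ b j ∧ (b j : ℝ) ≤ Real.exp (k * (N1U S u + 1))) ∧
    (∀ i j, (e i j : ℝ) ≤ Real.exp (δ * N1U S u)) ∧ ∀ i, u i = η i * ∏ j, (b j : ℤ) ^ e i j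

theorem mx_pos {u : Fin (n + 1) → ℤ} (hu : ∀ i, u i ≠ 0) :
    1 ≤ (Finset.univ.sup fun i => (u i).natAbs) :=
  (Nat.one_le_iff_ne_zero.2 (Int.natAbs_ne_zero.2 (hu 0))).trans
    (Finset.le_sup (f := fun i => (u i).natAbs) (Finset.mem_univ 0))

theorem quo_eq (u : Fin (n + 1) → ℤ) (j : Fin n) : quo u j = Rat.divInt (u j.succ) (u 0) := by
  rw [Rat.divInt_eq_div]
  rfl

theorem quo_num {u : Fin (n + 1) → ℤ} (hu : ∀ i, u i ≠ 0) (j : Fin n) :
    (quo u j).num.natAbs ∣ (u j.succ).natAbs := by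
  refine Int.natAbs_dvd_natAbs.2 ?_
  rw [quo_eq]
  exact Rat.num_dvd _ (hu 0)

theorem quo_den (u : Fin (n + 1) → ℤ) (j : Fin n) : (quo u j).den ∣ (u 0).natAbs := by
  have h3 : (((quo u j).den : ℤ)) ∣ u 0 := by
    rw [quo_eq]
    exact Rat.den_dvd _ _
  have := Int.natAbs_dvd_natAbs.2 h3
  rwa [Int.natAbs_natCast] at this

theorem ht_quo_le {u : Fin (n + 1) → ℤ} (hu : ∀ i, u i ≠ 0) : ht (quo u) ≤ n * hU u := by
  calc ht (quo u) ≤ ∑ _j : Fin n, hU u := by
        refine Finset.sum_le_sum fun j _ => ?_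
        have h3 : 0 < max (quo u j).num.natAbs (quo u j).den := lt_max_of_lt_right (Rat.pos _)
        refine Real.log_le_log (by exact_mod_cast h3) ?_
        have h4 : max (quo u j).num.natAbs (quo u j).den ≤
            Finset.univ.sup fun i => (u i).natAbs := by
          refine max_le ?_ ?_
          · exact (Nat.le_of_dvd (Int.natAbs_pos.2 (hu _)) (quo_num hu j)).trans
              (Finset.le_sup (f := fun i => (u i).natAbs) (Finset.mem_univ j.succ))
          · exact (Nat.le_of_dvd (Int.natAbs_pos.2 (hu _)) (quo_den u j)).trans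
              (Finset.le_sup (f := fun i => (u i).natAbs) (Finset.mem_univ 0))
        exact_mod_cast h4
    _ = n * hU u := by rw [Finset.sum_const, Finset.card_univ, Fintype.card_fin, nsmul_eq_mul]

theorem hU_le {u : Fin (n + 1) → ℤ} (hu : ∀ i, u i ≠ 0) {D : ℕ} (hD : 0 < D)
    (hG : ∀ G : ℤ, (∀ i, G ∣ u i) → G ∣ (D : ℤ)) : hU u ≤ Real.log D + ht (quo u) := by
  unfold hU
  obtain ⟨i, -, hi⟩ := Finset.exists_mem_eq_sup Finset.univ Finset.univ_nonempty
    fun i => (u i).natAbs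
  rw [hi]
  have h1 := ratio hu hD hG i
  have h2 : (0 : ℝ) < ((u i).natAbs : ℝ) := by exact_mod_cast Int.natAbs_pos.2 (hu i)
  have hDr : (0 : ℝ) < (D : ℝ) := by exact_mod_cast hD
  have h3 := Real.log_le_log h2 h1
  rwa [Real.log_mul hDr.ne' (Real.exp_pos _).ne', Real.log_exp] at h3

theorem badU_prime {u : Fin (n + 1) → ℤ} {p : ℕ} (hp : p ∈ badU u) : p.Prime :=
  Nat.prime_of_mem_primeFactors hp

theorem bad_quo {u : Fin (n + 1) → ℤ} (hu : ∀ i, u i ≠ 0) : bad (quo u) ⊆ badU u := by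
  intro p hp
  obtain ⟨j, _, hj⟩ := Finset.mem_biUnion.1 hp
  have hpp := Nat.prime_of_mem_primeFactors hj
  have hpd := Nat.dvd_of_mem_primeFactors hj
  have h0 : (∏ i, u i).natAbs ≠ 0 := Int.natAbs_ne_zero.2 (Finset.prod_ne_zero_iff.2 fun i _ => hu i)
  refine Nat.mem_primeFactors.2 ⟨hpp, ?_, h0⟩
  have h1 : ∀ i, (u i).natAbs ∣ (∏ i, u i).natAbs := fun i =>
    Int.natAbs_dvd_natAbs.2 (Finset.dvd_prod_of_mem u (Finset.mem_univ i))
  rcases (Nat.Prime.dvd_mul hpp).1 hpd with h | h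
  · exact (h.trans (quo_num hu j)).trans (h1 _)
  · exact (h.trans (quo_den u j)).trans (h1 _)

theorem mult_quo {u : Fin (n + 1) → ℤ} (hu : ∀ i, u i ≠ 0) {p : ℕ} (hp : p.Prime) (i : Fin n) :
    mult (quo u) p i = (padicValInt p (u i.succ) : ℤ) - padicValInt p (u 0) := by
  haveI := Fact.mk hp
  unfold mult quo
  rw [padicValRat.div (by exact_mod_cast hu _) (by exact_mod_cast hu _), padicValRat.of_int,
    padicValRat.of_int]

/-- the homogeneous form -/
noncomputable def homog {κ : Type} [Fintype κ] (m : κ → Fin n → ℕ) (B : ℕ) (G : κ → ℚ) :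
    MvPolynomial (Fin (n + 1)) ℚ :=
  ∑ k, C (G k) * ((∏ i, X i.succ ^ m k i) * X 0 ^ (B - ∑ i, m k i))

theorem homog_hom {κ : Type} [Fintype κ] {m : κ → Fin n → ℕ} {B : ℕ} (hB : ∀ k, ∑ i, m k i ≤ B)
    (G : κ → ℚ) : (homog m B G).IsHomogeneous B := by
  refine IsHomogeneous.sum _ _ _ fun k _ => ?_
  have h1 : (∏ i : Fin n, (X i.succ : MvPolynomial (Fin (n + 1)) ℚ) ^ m k i).IsHomogeneous
      (∑ i, m k i) := by
    refine IsHomogeneous.prod _ _ _ fun i _ => ?_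
    exact isHomogeneous_X_pow _ _
  have h2 := h1.mul (isHomogeneous_X_pow (R := ℚ) (0 : Fin (n + 1)) (B - ∑ i, m k i))
  rw [Nat.add_sub_cancel' (hB k)] at h2
  have h3 := (isHomogeneous_C (Fin (n + 1)) (G k)).mul h2
  rwa [zero_add] at h3

theorem homog_eval {K : Type} [Field K] [Algebra ℚ K] {κ : Type} [Fintype κ]
    {m : κ → Fin n → ℕ} {B : ℕ} (hB : ∀ k, ∑ i, m k i ≤ B) (G : κ → ℚ) (u : Fin (n + 1) → K)
    (hu : u 0 ≠ 0) :
    aeval u (homog m B G) = u 0 ^ B * ev m G (fun i => u i.succ / u 0) := by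
  unfold homog ev
  rw [map_sum, Finset.mul_sum]
  refine Finset.sum_congr rfl fun k _ => ?_
  rw [map_mul, map_mul, map_prod, map_pow, aeval_C, aeval_X]
  have h1 : ∏ i, aeval u ((X i.succ : MvPolynomial (Fin (n + 1)) ℚ) ^ m k i) =
      u 0 ^ (∑ i, m k i) * ∏ i, (u i.succ / u 0) ^ m k i := by
    rw [← Finset.prod_pow_eq_pow_sum, ← Finset.prod_mul_distrib]
    refine Finset.prod_congr rfl fun i _ => ?_
    rw [map_pow, aeval_X, ← mul_pow, mul_div_cancel₀ _ hu]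
  rw [h1, eq_ratCast]
  have h2 : u 0 ^ B = u 0 ^ (∑ i, m k i) * u 0 ^ (B - ∑ i, m k i) := by
    rw [← pow_add, Nat.add_sub_cancel' (hB k)]
  rw [h2]
  ring

/-- **the inequality for integral vectors** in the cone over a set with finite stabilizer -/
theorem absT (Φ : Set (Fin n → ℂ)) (hΦ : ∀ y ∈ Φ, ∀ i, y i ≠ 0)
    (hst : ∀ a : Fin n → ℤ, a ≠ 0 → ∃ f : MvPolynomial (Fin n) ℚ, (∀ y ∈ Φ, aeval y f = 0) ∧
      ∃ y ∈ Φ, ∃ s : ℂ, s ≠ 0 ∧ aeval (fun i => s ^ a i * y i) f ≠ 0)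
    (S : Finset ℕ) {D : ℕ} (hD : 0 < D) (N k : ℕ) (ε : ℝ) (hε : 0 < ε) :
    ∃ A δ : ℝ, 0 ≤ A ∧ 0 < δ ∧ ∀ Z : ℕ, 2 ≤ Z → ∃ 𝒢 : Finset (MvPolynomial (Fin (n + 1)) ℚ),
      (𝒢.card : ℝ) ≤ A * (Z : ℝ) ^ ε ∧
      (∀ G ∈ 𝒢, (∃ e : ℕ, (e : ℝ) ≤ A ∧ G.IsHomogeneous e) ∧ ∃ y ∈ Φ,
        aeval (Fin.cons 1 y : Fin (n + 1) → ℂ) G ≠ 0) ∧
      ∀ u : Fin (n + 1) → ℤ, (∀ i, u i ≠ 0) → (∀ G : ℤ, (∀ i, G ∣ u i) → G ∣ (D : ℤ)) →
        (fun i => (u (Fin.succ i) : ℂ) / u 0) ∈ Φ → N1U S u ≤ Real.log Z →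
        (GensU S N k δ u ∨ FewU S N k u ∧ hU u ≤ Real.exp (δ * N1U S u)) →
        hU u ≤ A * (N1U S u + 1) ∨ ∃ G ∈ 𝒢, aeval (fun i => (u i : ℚ)) G = 0 := by
  classical
  obtain ⟨κ, _, _, m, r, c, hF, hFS, hcl, hG⟩ := closure Φ hΦ hst
  obtain ⟨A1, δ1, hA1, hδ1, H⟩ := fixedL m S r c hF hFS N (2 * k) ε hε
  obtain ⟨B, hB⟩ : ∃ B : ℕ, ∀ k, ∑ i, m k i ≤ B :=
    ⟨∑ k, ∑ i, m k i, fun k => Finset.single_le_sum (f := fun k => ∑ i, m k i)
      (fun _ _ => Nat.zero_le _) (Finset.mem_univ k)⟩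
  have hlD : 0 ≤ Real.log D := Real.log_natCast_nonneg D
  have hn0 : (0 : ℝ) ≤ (n : ℝ) := Nat.cast_nonneg n
  have hB0 : (0 : ℝ) ≤ (B : ℝ) := Nat.cast_nonneg B
  refine ⟨A1 + Real.log D + n + B, δ1 / 2, by positivity, by positivity, fun Z hZ => ?_⟩
  obtain ⟨𝒢, h1, h2, h3⟩ := H Z hZ
  refine ⟨𝒢.image (homog m B), ?_, ?_, ?_⟩
  · have e1 : ((𝒢.image (homog m B)).card : ℝ) ≤ 𝒢.card := by exact_mod_cast Finset.card_image_le
    exact e1.trans (h1.trans (mul_le_mul_of_nonneg_right (by linarith) (by positivity)))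
  · intro G' hG'
    obtain ⟨G, hGm, rfl⟩ := Finset.mem_image.1 hG'
    refine ⟨⟨B, by linarith, homog_hom hB G⟩, ?_⟩
    obtain ⟨y, hy, hne⟩ := hG G (h2 G hGm)
    refine ⟨y, hy, ?_⟩
    rw [homog_eval hB G _ (by simp)]
    simpa using hne
  · intro u hu hGD huΦ hNZ hP
    obtain ⟨L, hL⟩ : ∃ L : ℝ, L = N1U S u := ⟨_, rfl⟩
    have hL0 : 0 ≤ L := by
      rw [hL]
      exact Finset.sum_nonneg fun p _ => Real.log_natCast_nonneg p
    have hxZ : quo u ∈ Zer ℚ m c := by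
      refine hcl _ ?_
      have : (fun i => ((quo u i : ℚ) : ℂ)) = fun i => (u (Fin.succ i) : ℂ) / u 0 := by
        funext i
        unfold quo
        push_cast
        rfl
      rw [this]
      exact huΦ
    have hfin : ht (quo u) ≤ A1 * (L + 1) → hU u ≤ (A1 + Real.log D + n + B) * (L + 1) := by
      intro h
      have e1 := hU_le hu hD hGD
      nlinarith [mul_nonneg hlD hL0, mul_nonneg hn0 hL0, mul_nonneg hB0 hL0]
    have hcase : ∀ h : GensL N (2 * k) δ1 L (quo u) ∨ ht (quo u) ≤ Real.exp (δ1 * L) ∧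
        ∃ T : Finset ℕ, (∀ p ∈ T, p.Prime) ∧ bad (quo u) ⊆ T ∧ N1L S T = L ∧
          FewMultL S T N (2 * k) (quo u), hU u ≤ (A1 + Real.log D + n + B) * (L + 1) ∨
        ∃ G ∈ 𝒢.image (homog m B), aeval (fun i => (u i : ℚ)) G = 0 := by
      intro h
      rcases h3 _ hxZ L hL0 (by rw [hL]; exact hNZ) h with h | ⟨G, hGm, h⟩
      · exact Or.inl (hfin h)
      · refine Or.inr ⟨homog m B G, Finset.mem_image_of_mem _ hGm, ?_⟩
        rw [homog_eval hB G _ (by exact_mod_cast hu 0)]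
        have : (fun i : Fin n => (u i.succ : ℚ) / (u 0 : ℚ)) = quo u := rfl
        rw [this, h, mul_zero]
    rw [← hL]
    rcases hP with ⟨η, b, e, g1, g2, g3, g4⟩ | ⟨h4, h5⟩
    · rw [← hL] at g2 g3
      refine hcase (Or.inl ⟨fun i => η i.succ * η 0, b, fun i j => (e i.succ j : ℤ) - e 0 j,
        fun i => ?_, fun j => ?_, fun i j => ?_, fun i => ?_⟩)
      · rw [abs_mul, g1, g1, mul_one]
      · refine ⟨(g2 j).1, (g2 j).2.trans (Real.exp_le_exp.2 ?_)⟩
        refine mul_le_mul_of_nonneg_right ?_ (by linarith)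
        push_cast
        have : (0 : ℝ) ≤ (k : ℝ) := Nat.cast_nonneg k
        linarith
      · have e1 : ((e i.succ j : ℤ) - e 0 j).natAbs ≤ max (e i.succ j) (e 0 j) := by omega
        have e2 : ((max (e i.succ j) (e 0 j) : ℕ) : ℝ) ≤ Real.exp (δ1 / 2 * L) := by
          rcases max_choice (e i.succ j) (e 0 j) with h | h
          · rw [h]
            exact g3 _ _
          · rw [h]
            exact g3 _ _
        have e3 : Real.exp (δ1 / 2 * L) ≤ Real.exp (δ1 * L) :=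
          Real.exp_le_exp.2 (by nlinarith)
        exact le_trans (by exact_mod_cast e1) (e2.trans e3)
      · have hb0 : ∀ j, (b j : ℚ) ≠ 0 := fun j => by
          have := (g2 j).1
          exact_mod_cast (by omega : b j ≠ 0)
        have hη0 : (η 0 : ℚ) * η 0 = 1 := by
          have h6 : η 0 * η 0 = 1 := by
            rw [← abs_mul_abs_self, g1, mul_one]
          exact_mod_cast h6
        have hη1 : (η 0 : ℚ) ≠ 0 := fun h => by
          rw [h, mul_zero] at hη0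
          exact zero_ne_one hη0
        have hp0 : ∏ j, (b j : ℚ) ^ e 0 j ≠ 0 :=
          Finset.prod_ne_zero_iff.2 fun j _ => pow_ne_zero _ (hb0 j)
        unfold quo
        rw [g4, g4]
        push_cast
        rw [div_eq_iff (mul_ne_zero hη1 hp0)]
        have h7 : (∏ j, (b j : ℚ) ^ ((e i.succ j : ℤ) - (e 0 j : ℤ))) * ∏ j, (b j : ℚ) ^ e 0 j =
            ∏ j, (b j : ℚ) ^ e i.succ j := by
          rw [← Finset.prod_mul_distrib]
          refine Finset.prod_congr rfl fun j _ => ?_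
          rw [zpow_sub₀ (hb0 j), zpow_natCast, zpow_natCast, div_mul_cancel₀ _ (pow_ne_zero _ (hb0 j))]
        calc (η i.succ : ℚ) * ∏ j, (b j : ℚ) ^ e i.succ j =
              (η i.succ : ℚ) * ((η 0 : ℚ) * η 0) * ((∏ j, (b j : ℚ) ^ ((e i.succ j : ℤ) -
                (e 0 j : ℤ))) * ∏ j, (b j : ℚ) ^ e 0 j) := by rw [hη0, h7, mul_one]
          _ = _ := by ring
    · rw [← hL] at h5
      rcases lt_or_ge (Real.exp (δ1 / 2 * L)) n with h | h
      · left
        have e1 : (n : ℝ) ≤ A1 + Real.log D + n + B := by linarith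
        exact (h5.trans h.le).trans (e1.trans (le_mul_of_one_le_right (by positivity)
          (by linarith)))
      · refine hcase (Or.inr ⟨?_, badU u, fun p hp => badU_prime hp, bad_quo hu, hL.symm, ?_⟩)
        · have e1 : Real.exp (δ1 * L) = Real.exp (δ1 / 2 * L) * Real.exp (δ1 / 2 * L) := by
            rw [← Real.exp_add]
            congr 1
            ring
          rw [e1]
          exact (ht_quo_le hu).trans (mul_le_mul h h5 (Real.log_natCast_nonneg _)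
            (Real.exp_pos _).le)
        · obtain ⟨W, hW, hWp⟩ := h4
          refine ⟨W.image fun w i => w (Fin.succ i) - w 0, Finset.card_image_le.trans hW,
            fun p hp => ?_⟩
          obtain ⟨w, hw, hwp⟩ := hWp p hp
          refine ⟨_, Finset.mem_image_of_mem _ hw, fun i => ?_⟩
          rw [mult_quo hu (badU_prime (Finset.mem_sdiff.1 hp).1)]
          have e1 := abs_le.1 (hwp i.succ)
          have e2 := abs_le.1 (hwp 0)
          rw [abs_le]
          push_cast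
          constructor <;> linarith [e1.1, e1.2, e2.1, e2.2]

end Pool.Agent.U583.VD
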