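import Mathlib
import Pool.Agent.U583.VD.Abs

/-!
# Cycles of degree `r`: the common divisors
-/

set_option autoImplicit false

namespace Pool.Agent.U583.VD

open MvPolynomial

variable {σ : Type} [Fintype σ] {n s r d : ℕ}

/-- `Ψ` is the form of an effective cycle `[y_1] + ... + [y_r]` of the projective variety `F = 0` which is defined over
the rationals: a product of the linear forms with the coefficients `y_k`, with integral coefficients without a common
prime factor; and `u i` is the product of the values `g_i(y_k)` -/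
def IsCycle (r : ℕ) (F : Fin s → MvPolynomial σ ℤ) (g : Fin (n + 1) → MvPolynomial σ ℤ)
    (Ψ : MvPolynomial σ ℤ) (u : Fin (n + 1) → ℤ) : Prop :=
  (∀ p : ℕ, p.Prime → ∃ α, ¬ (p : ℤ) ∣ coeff α Ψ) ∧
  ∃ y : Fin r → σ → ℂ, (∀ k q, aeval (y k) (F q) = 0) ∧
    map (Int.castRingHom ℂ) Ψ = ∏ k, ∑ j, C (y k j) * X j ∧
    ∀ i, (u i : ℂ) = ∏ k, aeval (y k) (g i)

theorem clear_poly {τ : Type} (f : MvPolynomial τ ℚ) : ∃ (D : ℕ) (f' : MvPolynomial τ ℤ),
    0 < D ∧ ∀ y : τ → ℂ, aeval y f' = (D : ℂ) * aeval y f := by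
  induction f using MvPolynomial.induction_on with
  | C a =>
    refine ⟨a.den, C a.num, a.pos, fun y => ?_⟩
    rw [aeval_C, aeval_C]
    have h1 := Rat.den_mul_eq_num a
    have h2 := congrArg (fun t : ℚ => (t : ℂ)) h1
    simp only [Rat.cast_mul, Rat.cast_natCast, Rat.cast_intCast] at h2
    simpa using h2.symm
  | add p q hp hq =>
    obtain ⟨D, f1, hD, h1⟩ := hp
    obtain ⟨E, f2, hE, h2⟩ := hq
    refine ⟨D * E, C (E : ℤ) * f1 + C (D : ℤ) * f2, Nat.mul_pos hD hE, fun y => ?_⟩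
    rw [map_add, map_mul, map_mul, aeval_C, aeval_C, h1, h2, map_add]
    push_cast
    ring
  | mul_X p j hp =>
    obtain ⟨D, f1, hD, h1⟩ := hp
    refine ⟨D, f1 * X j, hD, fun y => ?_⟩
    rw [map_mul, map_mul, h1, aeval_X, aeval_X]
    ring

theorem nst {F : Fin s → MvPolynomial σ ℤ} {g : Fin (n + 1) → MvPolynomial σ ℤ}
    (hb : ∀ y : Fin r → σ → ℂ, (∀ k q, aeval (y k) (F q) = 0) →
      (∀ i, ∏ k, aeval (y k) (g i) = 0) → ∃ k, y k = 0) (J : Fin r → σ) :
    ∃ (D e : ℕ) (B : Fin (n + 1) → MvPolynomial (Fin r × σ) ℤ), 0 < D ∧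
      ∀ y : Fin r → σ → ℂ, (∀ k q, aeval (y k) (F q) = 0) →
        (D : ℂ) * (∏ k, y k (J k)) ^ e =
          ∑ i, aeval (fun t : Fin r × σ => y t.1 t.2) (B i) * ∏ k, aeval (y k) (g i) := by
  classical
  obtain ⟨R, hR⟩ : ∃ R : Fin r → MvPolynomial σ ℤ → MvPolynomial (Fin r × σ) ℚ,
      R = fun k f => rename (fun j => (k, j)) (map (Int.castRingHom ℚ) f) := ⟨_, rfl⟩
  have hRe : ∀ (k : Fin r) (f : MvPolynomial σ ℤ) (y : Fin r → σ → ℂ),
      aeval (fun t : Fin r × σ => y t.1 t.2) (R k f) = aeval (y k) f := fun k f y => by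
    rw [hR]
    simp only
    rw [aeval_rename]
    have h1 : ((fun t : Fin r × σ => y t.1 t.2) ∘ fun j => (k, j)) = y k := rfl
    rw [h1, aeval_def, aeval_def, eval₂_map]
    congr 1
  obtain ⟨I, hI⟩ : ∃ I : Ideal (MvPolynomial (Fin r × σ) ℚ), I =
      Ideal.span (Set.range fun p : Fin r × Fin s => R p.1 (F p.2)) ⊔
      Ideal.span (Set.range fun i => ∏ k, R k (g i)) := ⟨_, rfl⟩
  have h2 : (∏ k, X (k, J k) : MvPolynomial (Fin r × σ) ℚ) ∈ I.radical := by
    rw [← vanishingIdeal_zeroLocus_eq_radical (K := ℂ) I, mem_vanishingIdeal_iff]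
    intro z hz
    rw [mem_zeroLocus_iff] at hz
    obtain ⟨y, hy⟩ : ∃ y : Fin r → σ → ℂ, y = fun k j => z (k, j) := ⟨_, rfl⟩
    have hzy : z = fun t : Fin r × σ => y t.1 t.2 := by
      rw [hy]
    obtain ⟨k, hk⟩ := hb y (fun k q => by
      rw [← hRe k (F q) y, ← hzy]
      refine hz _ ?_
      rw [hI]
      exact Ideal.mem_sup_left (Ideal.subset_span ⟨(k, q), rfl⟩)) (fun i => by
      have h3 : aeval z (∏ k, R k (g i)) = 0 := by
        refine hz _ ?_
        rw [hI]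
        exact Ideal.mem_sup_right (Ideal.subset_span ⟨i, rfl⟩)
      rw [map_prod] at h3
      rw [← h3]
      refine Finset.prod_congr rfl fun k _ => ?_
      rw [hzy, hRe])
    rw [map_prod]
    refine Finset.prod_eq_zero (Finset.mem_univ k) ?_
    rw [aeval_X, hzy]
    simp only
    rw [hk]
    rfl
  obtain ⟨e, he⟩ := h2
  rw [hI] at he
  obtain ⟨a, ha, b, hb', hab⟩ := Submodule.mem_sup.1 he
  obtain ⟨A, hA⟩ := Ideal.mem_span_range_iff_exists_fun.1 ha
  obtain ⟨B, hB⟩ := Ideal.mem_span_range_iff_exists_fun.1 hb'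
  choose D B' hD hDz using fun i => clear_poly (B i)
  refine ⟨∏ i, D i, e, fun i => C ((∏ i' ∈ Finset.univ.erase i, D i' : ℕ) : ℤ) * B' i,
    Finset.prod_pos fun i _ => hD i, fun y hy => ?_⟩
  have h5 : (∏ k, y k (J k)) ^ e = ∑ i, aeval (fun t : Fin r × σ => y t.1 t.2) (B i) *
      ∏ k, aeval (y k) (g i) := by
    have h6 := congrArg (aeval (fun t : Fin r × σ => y t.1 t.2)) hab
    rw [← hA, ← hB, map_add, map_sum, map_sum, map_pow, map_prod] at h6
    simp only [aeval_X] at h6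
    rw [← h6]
    have h7 : ∑ p : Fin r × Fin s, aeval (fun t : Fin r × σ => y t.1 t.2)
        (A p * R p.1 (F p.2)) = 0 := by
      refine Finset.sum_eq_zero fun p _ => ?_
      rw [map_mul, hRe, hy, mul_zero]
    rw [h7, zero_add]
    refine Finset.sum_congr rfl fun i _ => ?_
    rw [map_mul, map_prod]
    simp only [hRe]
  rw [h5, Finset.mul_sum]
  refine Finset.sum_congr rfl fun i _ => ?_
  rw [map_mul, hDz, aeval_C, ← Finset.mul_prod_erase Finset.univ D (Finset.mem_univ i)]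
  push_cast
  ring

theorem exists_val (p : ℕ) (hp : p.Prime) : ∃ O : ValuationSubring ℂ, O.valuation (p : ℂ) < 1 := by
  obtain ⟨P, hP⟩ : ∃ P : Ideal ℤ, P = Ideal.span {(p : ℤ)} := ⟨_, rfl⟩
  haveI : P.IsPrime := by
    rw [hP]
    exact (Ideal.span_singleton_prime (by exact_mod_cast hp.ne_zero)).2
      (Nat.prime_iff_prime_int.1 hp)
  have hu : ∀ y : P.primeCompl, IsUnit (Int.castRingHom ℂ y) := fun y => by
    refine IsUnit.mk0 _ fun h => y.2 ?_
    have h0 : (y : ℤ) = 0 := by simpa using h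
    show (y : ℤ) ∈ P
    rw [h0]
    exact P.zero_mem
  obtain ⟨f, hf⟩ : ∃ f : Localization.AtPrime P →+* ℂ, f (algebraMap ℤ _ (p : ℤ)) = (p : ℂ) := by
    refine ⟨IsLocalization.lift (M := P.primeCompl) hu, ?_⟩
    rw [IsLocalization.lift_eq]
    simp
  obtain ⟨A, h, hl⟩ := IsLocalRing.exists_factor_valuationRing f
  refine ⟨A, ?_⟩
  have h1 : ¬ IsUnit (algebraMap ℤ (Localization.AtPrime P) (p : ℤ)) := by
    rw [IsLocalization.AtPrime.isUnit_to_map_iff _ P]
    intro h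
    refine h ?_
    rw [hP]
    exact Ideal.mem_span_singleton_self _
  have h2 : ¬ IsUnit (f.codRestrict A.toSubring h (algebraMap ℤ _ (p : ℤ))) := fun h =>
    h1 (hl.map_nonunit _ h)
  have h3 : (⟨(p : ℂ), by rw [← hf]; exact h _⟩ : A) =
      f.codRestrict A.toSubring h (algebraMap ℤ _ (p : ℤ)) := by
    apply Subtype.ext
    exact hf.symm
  have h4 : (⟨(p : ℂ), by rw [← hf]; exact h _⟩ : A) ∈ IsLocalRing.maximalIdeal A := by
    rw [IsLocalRing.mem_maximalIdeal]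
    show ¬ IsUnit _
    rw [h3]
    exact h2
  exact (A.valuation_lt_one_iff _).1 h4

theorem val_int (O : ValuationSubring ℂ) (z : ℤ) : O.valuation (z : ℂ) ≤ 1 :=
  (O.valuation_le_one_iff _).2 (intCast_mem O z)

theorem val_unit (O : ValuationSubring ℂ) {p : ℕ} (hp : p.Prime) (hO : O.valuation (p : ℂ) < 1)
    {z : ℤ} (hz : ¬ (p : ℤ) ∣ z) : O.valuation (z : ℂ) = 1 := by
  refine le_antisymm (val_int O z) ?_
  by_contra hcon
  push Not at hcon
  have h1 : IsCoprime (p : ℤ) z := (Nat.prime_iff_prime_int.1 hp).coprime_iff_not_dvd.2 hz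
  obtain ⟨a, b, hab⟩ := h1
  have h2 : ((a : ℂ) * (p : ℂ) + (b : ℂ) * (z : ℂ)) = 1 := by exact_mod_cast hab
  have h3 : O.valuation ((a : ℂ) * (p : ℂ) + (b : ℂ) * (z : ℂ)) < 1 := by
    refine Valuation.map_add_lt _ ?_ ?_
    · rw [map_mul]
      exact (mul_le_of_le_one_left' (val_int O a)).trans_lt hO
    · rw [map_mul]
      exact (mul_le_of_le_one_left' (val_int O b)).trans_lt hcon
  rw [h2, map_one] at h3
  exact lt_irrefl _ h3

/-- the coefficients of a product of linear forms over a valuation ring -/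
theorem coeff_mem (O : ValuationSubring ℂ) (z : Fin r → σ → ℂ) (hz : ∀ k j, z k j ∈ O)
    (α : σ →₀ ℕ) : coeff α (∏ k, ∑ j, C (z k j) * X j) ∈ O := by
  have h1 : (∏ k, ∑ j, C (z k j) * X j : MvPolynomial σ ℂ) =
      map O.subtype (∏ k, ∑ j, C (⟨z k j, hz k j⟩ : O) * X j) := by
    rw [map_prod]
    refine Finset.prod_congr rfl fun k _ => ?_
    rw [map_sum]
    refine Finset.sum_congr rfl fun j _ => ?_
    rw [map_mul, map_C, map_X]
    rfl
  rw [h1, coeff_map]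
  exact (coeff α (∏ k, ∑ j, C (⟨z k j, hz k j⟩ : O) * X j)).2

theorem aeval_mem {τ : Type} (O : ValuationSubring ℂ) (z : τ → ℂ) (hz : ∀ j, z j ∈ O)
    (f : MvPolynomial τ ℤ) : aeval z f ∈ O := by
  have h1 := aeval_algebraMap_apply (B := ℂ) (fun j => (⟨z j, hz j⟩ : O)) f
  have h2 : (fun j => algebraMap O ℂ (⟨z j, hz j⟩ : O)) = z := rfl
  have h3 : (algebraMap O ℂ) ∘ (fun j => (⟨z j, hz j⟩ : O)) = z := rfl
  rw [h3] at h1
  rw [h1]
  exact (aeval (fun j => (⟨z j, hz j⟩ : O)) f).2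

set_option maxHeartbeats 400000 in
theorem cyc_local {F : Fin s → MvPolynomial σ ℤ} {g : Fin (n + 1) → MvPolynomial σ ℤ}
    (hF : ∀ q, ∃ e, (F q).IsHomogeneous e) (hg : ∀ i, (g i).IsHomogeneous d)
    {D e : (Fin r → σ) → ℕ} {B : (Fin r → σ) → Fin (n + 1) → MvPolynomial (Fin r × σ) ℤ}
    (hD : ∀ J, 0 < D J) (hDe : ∀ (J : Fin r → σ) (y : Fin r → σ → ℂ),
      (∀ k q, aeval (y k) (F q) = 0) → (D J : ℂ) * (∏ k, y k (J k)) ^ e J =
        ∑ i, aeval (fun t : Fin r × σ => y t.1 t.2) (B J i) * ∏ k, aeval (y k) (g i))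
    {Ψ : MvPolynomial σ ℤ} {u : Fin (n + 1) → ℤ} {y : Fin r → σ → ℂ}
    (hyF : ∀ k q, aeval (y k) (F q) = 0)
    (hΨ : map (Int.castRingHom ℂ) Ψ = ∏ k, ∑ j, C (y k j) * X j)
    (hu : ∀ i, (u i : ℂ) = ∏ k, aeval (y k) (g i)) {G : ℤ} (hG : ∀ i, G ∣ u i)
    {p a : ℕ} (hp : p.Prime) (hpa : (p : ℤ) ^ a ∣ G) {α : σ →₀ ℕ}
    (hα : ¬ (p : ℤ) ∣ coeff α Ψ) : ∃ J, (p : ℤ) ^ a ∣ (D J : ℤ) := by
  classical
  obtain ⟨O, hO⟩ := exists_val p hp
  have hΨα : (∏ k, ∑ j, C (y k j) * X j : MvPolynomial σ ℂ) ≠ 0 := by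
    intro h
    rw [← hΨ] at h
    have h1 := congrArg (coeff α) h
    rw [coeff_map, coeff_zero] at h1
    refine hα ?_
    have h2 : coeff α Ψ = 0 := by simpa using h1
    rw [h2]
    exact dvd_zero _
  have hy0 : ∀ k, y k ≠ 0 := by
    intro k hk
    refine hΨα (Finset.prod_eq_zero (Finset.mem_univ k) ?_)
    rw [hk]
    simp
  have hmax : ∀ k, ∃ j0, y k j0 ≠ 0 ∧ ∀ j, O.valuation (y k j) ≤ O.valuation (y k j0) := by
    intro k
    obtain ⟨j1, hj1⟩ := Function.ne_iff.1 (hy0 k)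
    obtain ⟨j0, -, hj0⟩ := Finset.exists_max_image Finset.univ (fun j => O.valuation (y k j))
      ⟨j1, Finset.mem_univ _⟩
    refine ⟨j0, fun h => hj1 ?_, fun j => hj0 j (Finset.mem_univ j)⟩
    have h1 := hj0 j1 (Finset.mem_univ j1)
    rw [h, map_zero, le_zero_iff, map_eq_zero] at h1
    exact h1
  choose J hJ0 hJ using hmax
  obtain ⟨z, hz⟩ : ∃ z : Fin r → σ → ℂ, z = fun k j => (y k (J k))⁻¹ * y k j := ⟨_, rfl⟩
  have hzO : ∀ k j, z k j ∈ O := fun k j => by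
    rw [← O.valuation_le_one_iff, hz]
    simp only
    rw [map_mul, map_inv₀]
    have h1 : O.valuation (y k (J k)) ≠ 0 := (map_ne_zero _).2 (hJ0 k)
    rw [inv_mul_le_iff₀ (zero_lt_iff.2 h1), mul_one]
    exact hJ k j
  have hzJ : ∀ k, z k (J k) = 1 := fun k => by
    rw [hz]
    exact inv_mul_cancel₀ (hJ0 k)
  have hyz : ∀ k, y k = fun j => y k (J k) * z k j := fun k => by
    funext j
    rw [hz]
    simp only
    rw [mul_inv_cancel_left₀ (hJ0 k)]
  obtain ⟨l, hl⟩ : ∃ l : ℂ, l = ∏ k, y k (J k) := ⟨_, rfl⟩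
  have hl0 : l ≠ 0 := by
    rw [hl]
    exact Finset.prod_ne_zero_iff.2 fun k _ => hJ0 k
  have hΨz : map (Int.castRingHom ℂ) Ψ = C l * ∏ k, ∑ j, C (z k j) * X j := by
    rw [hΨ, hl, map_prod, ← Finset.prod_mul_distrib]
    refine Finset.prod_congr rfl fun k _ => ?_
    rw [Finset.mul_sum]
    refine Finset.sum_congr rfl fun j _ => ?_
    rw [← mul_assoc, ← C_mul]
    congr 2
    exact congrFun (hyz k) j
  have hl1 : 1 ≤ O.valuation l := by
    have h1 := congrArg (coeff α) hΨz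
    rw [coeff_map, coeff_C_mul] at h1
    have h2 : O.valuation ((coeff α Ψ : ℤ) : ℂ) = 1 := val_unit O hp hO hα
    have h3 : ((coeff α Ψ : ℤ) : ℂ) = l * coeff α (∏ k, ∑ j, C (z k j) * X j) := by
      simpa using h1
    rw [h3, map_mul] at h2
    rw [← h2]
    exact mul_le_of_le_one_right' ((O.valuation_le_one_iff _).2 (coeff_mem O z hzO α))
  have hzF : ∀ k q, aeval (z k) (F q) = 0 := fun k q => by
    obtain ⟨e, he⟩ := hF q
    rw [hz]
    simp only
    rw [hom_scale he, hyF, mul_zero]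
  have huz : ∀ i, (u i : ℂ) = l ^ d * ∏ k, aeval (z k) (g i) := fun i => by
    rw [hu, hl, ← Finset.prod_pow, ← Finset.prod_mul_distrib]
    refine Finset.prod_congr rfl fun k _ => ?_
    rw [← hom_scale (hg i), ← hyz k]
  have hval : ∀ i, O.valuation (∏ k, aeval (z k) (g i)) ≤ O.valuation ((p : ℂ)) ^ a := by
    intro i
    obtain ⟨w, hw⟩ := hpa.trans (hG i)
    have h1 : O.valuation (u i : ℂ) ≤ O.valuation (p : ℂ) ^ a := by
      have h2 : (u i : ℂ) = (p : ℂ) ^ a * (w : ℂ) := by exact_mod_cast hw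
      rw [h2, map_mul, map_pow]
      exact mul_le_of_le_one_right' (val_int O w)
    rw [huz, map_mul, map_pow] at h1
    refine le_trans ?_ h1
    exact le_mul_of_one_le_left' (one_le_pow₀ hl1)
  have hDJ := hDe J z hzF
  have h1 : O.valuation ((D J : ℕ) : ℂ) ≤ O.valuation (p : ℂ) ^ a := by
    have h2 : ∏ k, z k (J k) = 1 := Finset.prod_eq_one fun k _ => hzJ k
    rw [h2, one_pow, mul_one] at hDJ
    rw [hDJ]
    refine Valuation.map_sum_le _ fun i _ => ?_
    rw [map_mul]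
    refine (mul_le_of_le_one_left' ?_).trans (hval i)
    exact (O.valuation_le_one_iff _).2 (aeval_mem O (fun t : Fin r × σ => z t.1 t.2)
        (fun t => hzO t.1 t.2) (B J i))
  -- the valuation of `D`
  refine ⟨J, ?_⟩
  have h2 : (p : ℤ) ^ a ∣ (D J : ℤ) := by
    obtain ⟨b, D', hD', hDb⟩ := Nat.exists_eq_pow_mul_and_not_dvd (hD J).ne' p hp.ne_one
    have h3 : a ≤ b := by
      by_contra hcon
      push Not at hcon
      have h4 : O.valuation ((D J : ℕ) : ℂ) = O.valuation (p : ℂ) ^ b := by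
        rw [hDb]
        push_cast
        rw [map_mul, map_pow]
        have h5 : O.valuation ((D' : ℕ) : ℂ) = 1 := by
          have := val_unit O hp hO (z := (D' : ℤ)) (by exact_mod_cast hD')
          simpa using this
        rw [h5, mul_one]
      rw [h4] at h1
      have hp0 : O.valuation (p : ℂ) ≠ 0 := (map_ne_zero _).2 (by exact_mod_cast hp.ne_zero)
      exact absurd (pow_lt_pow_right_of_lt_one₀ (zero_lt_iff.2 hp0) hO hcon) (not_lt.2 h1)
    rw [hDb]
    push_cast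
    exact (pow_dvd_pow _ h3).trans (dvd_mul_right _ _)
  exact h2

set_option maxHeartbeats 400000 in
/-- the common divisors of the `u i` -/
theorem cyc_gcd {F : Fin s → MvPolynomial σ ℤ} {g : Fin (n + 1) → MvPolynomial σ ℤ}
    (hF : ∀ q, ∃ e, (F q).IsHomogeneous e) (hg : ∀ i, (g i).IsHomogeneous d)
    (hb : ∀ y : Fin r → σ → ℂ, (∀ k q, aeval (y k) (F q) = 0) →
      (∀ i, ∏ k, aeval (y k) (g i) = 0) → ∃ k, y k = 0) :
    ∃ D : ℕ, 0 < D ∧ ∀ (Ψ : MvPolynomial σ ℤ) (u : Fin (n + 1) → ℤ), IsCycle r F g Ψ u →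
      ∀ G : ℤ, (∀ i, G ∣ u i) → G ∣ (D : ℤ) := by
  classical
  choose D e B hD hDe using nst hb
  refine ⟨∏ J, D J, Finset.prod_pos fun J _ => hD J, ?_⟩
  rintro Ψ u ⟨hprim, y, hyF, hΨ, hu⟩ G hG
  -- one prime power
  have key : ∀ (p a : ℕ), p.Prime → (p : ℤ) ^ a ∣ G → (p : ℤ) ^ a ∣ ((∏ J, D J : ℕ) : ℤ) := by
    intro p a hp hpa
    obtain ⟨α, hα⟩ := hprim p hp
    obtain ⟨J, h2⟩ := cyc_local hF hg hD hDe hyF hΨ hu hG hp hpa hα
    have h9 : D J ∣ ∏ J, D J := Finset.dvd_prod_of_mem D (Finset.mem_univ J)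
    exact h2.trans (Int.natCast_dvd_natCast.2 h9)
  have h1 : G.natAbs ∣ (∏ J, D J) := by
    rw [Nat.dvd_iff_prime_pow_dvd_dvd]
    intro p a hp hpa
    have h2 := key p a hp (by
      have := Int.natCast_dvd_natCast.2 hpa
      push_cast at this
      exact (by simpa using this))
    exact_mod_cast h2
  exact Int.natAbs_dvd.1 (by exact_mod_cast h1)

end Pool.Agent.U583.VD
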