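import Mathlib
import Pool.Agent.U583.VD.Loc

/-!
# Cycles of degree `r`: the absolute values
-/

set_option autoImplicit false
set_option maxHeartbeats 400000

namespace Pool.Agent.U583.VD

open MvPolynomial

variable {σ : Type} [Fintype σ] {n s r d : ℕ}

theorem cont_aevalC (f : MvPolynomial σ ℤ) : Continuous fun y : σ → ℂ => aeval y f := by
  have : (fun y : σ → ℂ => aeval y f) = fun y => ∑ k ∈ f.support,
      (algebraMap ℤ ℂ) (coeff k f) * ∏ j, y j ^ k j := by
    funext y
    rw [aeval_def, eval₂_eq']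
  rw [this]
  fun_prop

theorem upperC {f : MvPolynomial σ ℤ} (hf : f.IsHomogeneous d) :
    ∃ C : ℝ, 0 ≤ C ∧ ∀ y : σ → ℂ, ‖aeval y f‖ ≤ C * ‖y‖ ^ d := by
  refine ⟨∑ k ∈ f.support, ‖((coeff k f : ℤ) : ℂ)‖, Finset.sum_nonneg fun _ _ => norm_nonneg _,
    fun y => ?_⟩
  rw [aeval_def, eval₂_eq', Finset.sum_mul]
  refine (norm_sum_le _ _).trans (Finset.sum_le_sum fun k hk => ?_)
  have h1 : ∑ j, k j = d := by
    have := hf (mem_support_iff.1 hk)
    rw [← this, Finsupp.weight_apply, Finsupp.sum_fintype] <;> simp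
  rw [norm_mul]
  refine mul_le_mul_of_nonneg_left ?_ (norm_nonneg _)
  rw [norm_prod, ← h1, ← Finset.prod_pow_eq_pow_sum]
  refine Finset.prod_le_prod (fun _ _ => norm_nonneg _) fun j _ => ?_
  rw [norm_pow]
  exact pow_le_pow_left₀ (norm_nonneg _) (norm_le_pi_norm y j) _

/-- functions which are homogeneous in each vector -/
theorem compact_mult {ι : Type} [Fintype ι] (hd : 0 < d) {F : Fin s → MvPolynomial σ ℤ}
    (hF : ∀ q, ∃ e, (F q).IsHomogeneous e) (f : ι → (Fin r → σ → ℂ) → ℂ)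
    (hc : ∀ i, Continuous (f i))
    (hh : ∀ i (t : Fin r → ℂ) (y : Fin r → σ → ℂ), f i (fun k j => t k * y k j) =
      (∏ k, t k) ^ d * f i y)
    (hb : ∀ y : Fin r → σ → ℂ, (∀ k q, aeval (y k) (F q) = 0) → (∀ i, f i y = 0) →
      ∃ k, y k = 0) :
    ∃ c : ℝ, 0 < c ∧ ∀ y : Fin r → σ → ℂ, (∀ k q, aeval (y k) (F q) = 0) →
      c * (∏ k, ‖y k‖) ^ d ≤ ∑ i, ‖f i y‖ := by
  obtain ⟨K, hK⟩ : ∃ K : Set (σ → ℂ), K = Metric.sphere 0 1 ∩ {y | ∀ q, aeval y (F q) = 0} :=
    ⟨_, rfl⟩
  have hKc : IsCompact K := by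
    rw [hK]
    refine (isCompact_sphere 0 1).inter_right ?_
    have : {y : σ → ℂ | ∀ q, aeval y (F q) = 0} = ⋂ q, {y | aeval y (F q) = 0} := by
      ext y
      simp
    rw [this]
    exact isClosed_iInter fun q => isClosed_eq (cont_aevalC (F q)) continuous_const
  have hKr : IsCompact (Set.pi Set.univ fun _ : Fin r => K) := isCompact_univ_pi fun _ => hKc
  have hcont : Continuous fun y : Fin r → σ → ℂ => ∑ i, ‖f i y‖ :=
    continuous_finset_sum _ fun i _ => (hc i).norm
  obtain ⟨c, hc0, hcK⟩ : ∃ c : ℝ, 0 < c ∧ ∀ y ∈ Set.pi Set.univ fun _ : Fin r => K,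
      c ≤ ∑ i, ‖f i y‖ := by
    rcases (Set.pi Set.univ fun _ : Fin r => K).eq_empty_or_nonempty with h | h
    · exact ⟨1, one_pos, by simp [h]⟩
    · obtain ⟨y, hy, hmin⟩ := hKr.exists_isMinOn h hcont.continuousOn
      refine ⟨_, ?_, hmin⟩
      rcases (Finset.sum_nonneg fun (i : ι) (_ : i ∈ Finset.univ) =>
        norm_nonneg (f i y)).lt_or_eq with h1 | h1
      · exact h1
      · exfalso
        have h2 := (Finset.sum_eq_zero_iff_of_nonneg fun (i : ι) _ => norm_nonneg (f i y)).1 h1.symm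
        have hyK : ∀ k, y k ∈ K := fun k => hy k (Set.mem_univ k)
        obtain ⟨k, hk⟩ := hb y (fun k q => by
          have := hyK k
          rw [hK] at this
          exact this.2 q) (fun i => norm_eq_zero.1 (h2 i (Finset.mem_univ i)))
        have h3 := hyK k
        rw [hK, hk] at h3
        have h4 : ‖(0 : σ → ℂ)‖ = 1 := by simpa using h3.1
        rw [norm_zero] at h4
        exact zero_ne_one h4
  refine ⟨c, hc0, fun y hy => ?_⟩
  by_cases h0 : ∃ k, y k = 0
  · obtain ⟨k, hk⟩ := h0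
    have h1 : ∏ k, ‖y k‖ = 0 := Finset.prod_eq_zero (Finset.mem_univ k) (by rw [hk, norm_zero])
    rw [h1, zero_pow hd.ne', mul_zero]
    exact Finset.sum_nonneg fun _ _ => norm_nonneg _
  · push Not at h0
    have hn : ∀ k, 0 < ‖y k‖ := fun k => norm_pos_iff.2 (h0 k)
    obtain ⟨w, hw⟩ : ∃ w : Fin r → σ → ℂ, w = fun k j => ((‖y k‖⁻¹ : ℝ) : ℂ) * y k j := ⟨_, rfl⟩
    have hyw : y = fun k j => ((‖y k‖ : ℝ) : ℂ) * w k j := by
      funext k j
      rw [hw]
      simp only
      rw [← mul_assoc, ← Complex.ofReal_mul, mul_inv_cancel₀ (hn k).ne', Complex.ofReal_one,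
        one_mul]
    have hwK : w ∈ Set.pi Set.univ fun _ : Fin r => K := by
      intro k _
      rw [hK]
      refine ⟨?_, fun q => ?_⟩
      · have : w k = ((‖y k‖⁻¹ : ℝ) : ℂ) • y k := by
          rw [hw]
          rfl
        rw [mem_sphere_zero_iff_norm, this, norm_smul, Complex.norm_real, norm_inv, norm_norm]
        exact inv_mul_cancel₀ (hn k).ne'
      · obtain ⟨e, he⟩ := hF q
        rw [hw]
        simp only
        rw [hom_scale he, hy k q, mul_zero]
    have h1 := hcK w hwK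
    have h2 : ∀ i, ‖f i y‖ = (∏ k, ‖y k‖) ^ d * ‖f i w‖ := fun i => by
      have h3 : f i y = (∏ k, ((‖y k‖ : ℝ) : ℂ)) ^ d * f i w := by
        conv_lhs => rw [hyw]
        exact hh i _ w
      rw [h3, norm_mul, norm_pow, norm_prod]
      congr 2
      refine Finset.prod_congr rfl fun k _ => ?_
      rw [Complex.norm_real, norm_norm]
    simp only [h2]
    rw [← Finset.mul_sum, mul_comm]
    exact mul_le_mul_of_nonneg_left h1 (by positivity)

theorem coeff_formula [DecidableEq σ] (y : Fin r → σ → ℂ) (α : σ →₀ ℕ) :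
    coeff α (∏ k, ∑ j, C (y k j) * X j) = ∑ J : Fin r → σ,
      if (∑ k, Finsupp.single (J k) 1) = α then ∏ k, y k (J k) else 0 := by
  rw [Finset.prod_univ_sum, coeff_sum, Fintype.piFinset_univ]
  refine Finset.sum_congr rfl fun J _ => ?_
  have h1 : ∏ k, (C (y k (J k)) * X (J k) : MvPolynomial σ ℂ) =
      monomial (∑ k, Finsupp.single (J k) 1) (∏ k, y k (J k)) := by
    have h2 : ∀ t : Finset (Fin r), ∏ k ∈ t, (C (y k (J k)) * X (J k) : MvPolynomial σ ℂ) =
        monomial (∑ k ∈ t, Finsupp.single (J k) 1) (∏ k ∈ t, y k (J k)) := by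
      intro t
      induction t using Finset.induction_on with
      | empty => simp
      | insert k t hk ih =>
        rw [Finset.prod_insert hk, Finset.sum_insert hk, Finset.prod_insert hk, ih,
          C_mul_X_eq_monomial, monomial_mul]
    exact h2 _
  rw [h1, coeff_monomial]

theorem coeff_upper [DecidableEq σ] (y : Fin r → σ → ℂ) (α : σ →₀ ℕ) :
    ‖coeff α (∏ k, ∑ j, C (y k j) * X j)‖ ≤ (Fintype.card (Fin r → σ) : ℝ) * ∏ k, ‖y k‖ := by
  rw [coeff_formula]
  refine (norm_sum_le _ _).trans ?_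
  calc ∑ J : Fin r → σ, ‖(if (∑ k, Finsupp.single (J k) 1) = α then ∏ k, y k (J k) else 0 : ℂ)‖ ≤
        ∑ _J : Fin r → σ, ∏ k, ‖y k‖ := by
        refine Finset.sum_le_sum fun J _ => ?_
        split_ifs
        · rw [norm_prod]
          exact Finset.prod_le_prod (fun _ _ => norm_nonneg _) fun k _ => norm_le_pi_norm (y k) _
        · rw [norm_zero]
          positivity
    _ = _ := by rw [Finset.sum_const, Finset.card_univ, nsmul_eq_mul]

/-- the coefficients of a product of linear forms are not all small -/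
theorem mahler [DecidableEq σ] (r : ℕ) : ∃ c : ℝ, 0 < c ∧ ∀ y : Fin r → σ → ℂ,
    c * ∏ k, ‖y k‖ ≤ ∑ J : Fin r → σ,
      ‖coeff (∑ k, Finsupp.single (J k) 1) (∏ k, ∑ j, C (y k j) * X j)‖ := by
  obtain ⟨c, hc, h⟩ := compact_mult (r := r) (d := 1) (s := 0) one_pos (F := fun q => q.elim0)
    (fun q => q.elim0)
    (fun (J : Fin r → σ) y => coeff (∑ k, Finsupp.single (J k) 1) (∏ k, ∑ j, C (y k j) * X j))
    (fun J => by
      simp only [coeff_formula]
      refine continuous_finset_sum _ fun J' _ => ?_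
      split_ifs
      · fun_prop
      · exact continuous_const)
    (fun J t y => by
      simp only [coeff_formula, pow_one]
      rw [Finset.mul_sum]
      refine Finset.sum_congr rfl fun J' _ => ?_
      split_ifs
      · rw [Finset.prod_mul_distrib]
      · rw [mul_zero])
    (fun y _ h0 => by
      by_contra hcon
      push Not at hcon
      have h1 : (∏ k, ∑ j, C (y k j) * X j : MvPolynomial σ ℂ) ≠ 0 := by
        rw [Finset.prod_ne_zero_iff]
        intro k _ hk
        apply hcon k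
        funext j
        have h2 := congrArg (coeff (Finsupp.single j 1)) hk
        rw [coeff_sum, coeff_zero, Finset.sum_eq_single j] at h2
        · rw [coeff_C_mul, coeff_X, if_pos rfl, mul_one] at h2
          exact h2
        · intro j' _ hj'
          rw [coeff_C_mul, coeff_X]
          rw [if_neg, mul_zero]
          intro h3
          exact hj' ((Finsupp.single_left_inj one_ne_zero).1 h3)
        · intro h3
          exact absurd (Finset.mem_univ j) h3
      apply h1
      ext α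
      rw [coeff_zero]
      by_cases hα : ∃ J : Fin r → σ, ∑ k, Finsupp.single (J k) 1 = α
      · obtain ⟨J, rfl⟩ := hα
        exact h0 J
      · rw [coeff_formula]
        refine Finset.sum_eq_zero fun J _ => ?_
        rw [if_neg]
        exact fun h => hα ⟨J, h⟩)
  refine ⟨c, hc, fun y => ?_⟩
  have := h y (fun k q => q.elim0)
  rwa [pow_one] at this

/-- the height of a form with coprime integral coefficients -/
noncomputable def hF (Ψ : MvPolynomial σ ℤ) : ℝ :=
  Real.log ((Ψ.support.sup fun α => (coeff α Ψ).natAbs : ℕ) : ℝ)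

theorem cyc_heights {F : Fin s → MvPolynomial σ ℤ} {g : Fin (n + 1) → MvPolynomial σ ℤ}
    (hd : 0 < d) (hF' : ∀ q, ∃ e, (F q).IsHomogeneous e) (hg : ∀ i, (g i).IsHomogeneous d)
    (hb : ∀ y : Fin r → σ → ℂ, (∀ k q, aeval (y k) (F q) = 0) →
      (∀ i, ∏ k, aeval (y k) (g i) = 0) → ∃ k, y k = 0) :
    ∃ C : ℝ, 0 ≤ C ∧ ∀ (Ψ : MvPolynomial σ ℤ) (u : Fin (n + 1) → ℤ), IsCycle r F g Ψ u →
      (∀ i, u i ≠ 0) → hF Ψ ≤ hU u + C ∧ hU u ≤ C * (hF Ψ + 1) := by
  classical
  obtain ⟨c, hc, hcy⟩ := compact_mult (ι := Fin (n + 1)) hd hF'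
    (fun i y => ∏ k, aeval (y k) (g i))
    (fun i => continuous_finsetProd _ fun k _ => (cont_aevalC (g i)).comp (continuous_apply k))
    (fun i t y => by
      rw [← Finset.prod_pow, ← Finset.prod_mul_distrib]
      exact Finset.prod_congr rfl fun k _ => hom_scale (hg i) (t k) (y k)) hb
  obtain ⟨c1, hc1, hm⟩ := mahler (σ := σ) r
  choose B hB hBy using fun i => upperC (hg i)
  obtain ⟨M, hM⟩ : ∃ M : ℝ, M = (Fintype.card (Fin r → σ) : ℝ) := ⟨_, rfl⟩
  obtain ⟨Q, hQ⟩ : ∃ Q : ℝ, Q = M ^ d * (n + 1) / c := ⟨_, rfl⟩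
  obtain ⟨R, hR⟩ : ∃ R : ℝ, R = (1 + ∑ i, B i ^ r) * (M / c1) ^ d := ⟨_, rfl⟩
  refine ⟨|Real.log Q| + (|Real.log R| + d), by positivity, ?_⟩
  rintro Ψ u ⟨hprim, y, hyF, hΨ, hu⟩ hu0
  obtain ⟨P, hP⟩ : ∃ P : ℝ, P = ∏ k, ‖y k‖ := ⟨_, rfl⟩
  have hP0 : 0 ≤ P := by
    rw [hP]
    positivity
  obtain ⟨H, hH⟩ : ∃ H : ℕ, H = Ψ.support.sup fun α => (coeff α Ψ).natAbs := ⟨_, rfl⟩
  have hHc : ∀ α, (coeff α Ψ).natAbs ≤ H := fun α => by
    by_cases hα : α ∈ Ψ.support
    · rw [hH]
      exact Finset.le_sup (f := fun α => (coeff α Ψ).natAbs) hα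
    · rw [notMem_support_iff.1 hα]
      exact Nat.zero_le _
  have hH1 : 1 ≤ H := by
    obtain ⟨α, hα⟩ := hprim 2 Nat.prime_two
    refine le_trans (Nat.one_le_iff_ne_zero.2 fun h => hα ?_) (hHc α)
    rw [Int.natAbs_eq_zero.1 h]
    exact dvd_zero _
  have hHr : (1 : ℝ) ≤ (H : ℝ) := by exact_mod_cast hH1
  have hcf : ∀ α, ‖coeff α (∏ k, ∑ j, C (y k j) * X j : MvPolynomial σ ℂ)‖ =
      ((coeff α Ψ).natAbs : ℝ) := fun α => by
    rw [← hΨ, coeff_map]
    simp only [eq_intCast]
    rw [Complex.norm_intCast, abs_cast]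
  have hHM : (H : ℝ) ≤ M * P := by
    have h1 : ∃ α ∈ Ψ.support, H = (coeff α Ψ).natAbs := by
      rw [hH]
      refine Finset.exists_mem_eq_sup _ ?_ _
      obtain ⟨α, hα⟩ := hprim 2 Nat.prime_two
      exact ⟨α, mem_support_iff.2 fun h => hα (by rw [h]; exact dvd_zero _)⟩
    obtain ⟨α, -, hα⟩ := h1
    rw [hα, ← hcf, hM, hP]
    exact coeff_upper y α
  have hMP : c1 * P ≤ M * H := by
    rw [hP, hM]
    refine (hm y).trans ?_
    calc ∑ J : Fin r → σ, ‖coeff (∑ k, Finsupp.single (J k) 1)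
          (∏ k, ∑ j, C (y k j) * X j : MvPolynomial σ ℂ)‖ ≤ ∑ _J : Fin r → σ, (H : ℝ) := by
          refine Finset.sum_le_sum fun J _ => ?_
          rw [hcf]
          exact_mod_cast hHc _
      _ = _ := by rw [Finset.sum_const, Finset.card_univ, nsmul_eq_mul]
  have hun : ∀ i, ‖∏ k, aeval (y k) (g i)‖ = ((u i).natAbs : ℝ) := fun i => by
    rw [← hu, Complex.norm_intCast, abs_cast]
  obtain ⟨m, hmm⟩ : ∃ m : ℕ, m = Finset.univ.sup fun i => (u i).natAbs := ⟨_, rfl⟩
  have hm1 : 1 ≤ m := by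
    rw [hmm]
    exact mx_pos hu0
  have hmr : (1 : ℝ) ≤ (m : ℝ) := by exact_mod_cast hm1
  have hum : ∀ i, ((u i).natAbs : ℝ) ≤ (m : ℝ) := fun i => by
    rw [hmm]
    exact_mod_cast Finset.le_sup (f := fun i => (u i).natAbs) (Finset.mem_univ i)
  have hM0 : 0 ≤ M := by
    rw [hM]
    positivity
  have hMpos : 0 < M := by
    rcases hM0.lt_or_eq with h | h
    · exact h
    · rw [← h, zero_mul] at hHM
      linarith
  have hPpos : 0 < P := by
    rcases hP0.lt_or_eq with h | h
    · exact h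
    · rw [← h, mul_zero] at hHM
      linarith
  have hQ0 : 0 < Q := by
    rw [hQ]
    positivity
  have hR0 : 0 < R := by
    rw [hR]
    have : 0 ≤ ∑ i, B i ^ r := Finset.sum_nonneg fun i _ => pow_nonneg (hB i) _
    positivity
  have hd1 : (1 : ℝ) ≤ (d : ℝ) := by exact_mod_cast hd
  unfold hF hU
  rw [← hH, ← hmm]
  have hlH : 0 ≤ Real.log H := Real.log_nonneg hHr
  have hlm : 0 ≤ Real.log m := Real.log_nonneg hmr
  constructor
  · have h1 : (H : ℝ) ≤ Q * m := by
      have h2 : (H : ℝ) ≤ (H : ℝ) ^ d := le_self_pow₀ hHr hd.ne'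
      have h3 : (H : ℝ) ^ d ≤ M ^ d * P ^ d := by
        rw [← mul_pow]
        exact pow_le_pow_left₀ (by linarith) hHM _
      have h4 : c * P ^ d ≤ (n + 1) * m := by
        have h5 := hcy y hyF
        rw [← hP] at h5
        refine h5.trans ?_
        calc ∑ i, ‖∏ k, aeval (y k) (g i)‖ ≤ ∑ _i : Fin (n + 1), (m : ℝ) := by
              refine Finset.sum_le_sum fun i _ => ?_
              rw [hun]
              exact hum i
          _ = (n + 1) * m := by
              rw [Finset.sum_const, Finset.card_univ, Fintype.card_fin, nsmul_eq_mul]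
              push_cast
              ring
      have h6 : P ^ d ≤ (n + 1) * m / c := by
        rw [le_div_iff₀ hc, mul_comm]
        exact h4
      calc (H : ℝ) ≤ M ^ d * P ^ d := h2.trans h3
        _ ≤ M ^ d * ((n + 1) * m / c) := mul_le_mul_of_nonneg_left h6 (by positivity)
        _ = Q * m := by
            rw [hQ]
            ring
    have h2 := Real.log_le_log (by linarith) h1
    rw [Real.log_mul hQ0.ne' (by positivity)] at h2
    have h3 := le_abs_self (Real.log Q)
    have h4 := abs_nonneg (Real.log R)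
    linarith
  · have h1 : (m : ℝ) ≤ R * (H : ℝ) ^ d := by
      obtain ⟨i, -, hi⟩ := Finset.exists_mem_eq_sup Finset.univ Finset.univ_nonempty
        fun i => (u i).natAbs
      rw [hmm, hi, ← hun]
      have h2 : ‖∏ k, aeval (y k) (g i)‖ ≤ B i ^ r * P ^ d := by
        rw [norm_prod]
        calc ∏ k, ‖aeval (y k) (g i)‖ ≤ ∏ k, (B i * ‖y k‖ ^ d) :=
              Finset.prod_le_prod (fun _ _ => norm_nonneg _) fun k _ => hBy i (y k)
          _ = _ := by
              rw [Finset.prod_mul_distrib, Finset.prod_const, Finset.card_univ, Fintype.card_fin,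
                Finset.prod_pow, hP]
      have h3 : P ≤ M / c1 * H := by
        rw [div_mul_eq_mul_div, le_div_iff₀ hc1, mul_comm]
        exact hMP
      have h4 : P ^ d ≤ (M / c1) ^ d * (H : ℝ) ^ d := by
        rw [← mul_pow]
        exact pow_le_pow_left₀ hP0 h3 _
      have h5 : B i ^ r ≤ 1 + ∑ i, B i ^ r := by
        have := Finset.single_le_sum (f := fun i => B i ^ r) (fun i _ => pow_nonneg (hB i) _)
          (Finset.mem_univ i)
        linarith
      calc ‖∏ k, aeval (y k) (g i)‖ ≤ B i ^ r * P ^ d := h2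
        _ ≤ (1 + ∑ i, B i ^ r) * ((M / c1) ^ d * (H : ℝ) ^ d) :=
            mul_le_mul h5 h4 (by positivity) ((pow_nonneg (hB i) _).trans h5)
        _ = R * (H : ℝ) ^ d := by
            rw [hR]
            ring
    have h2 := Real.log_le_log (by linarith) h1
    rw [Real.log_mul hR0.ne' (by positivity), Real.log_pow] at h2
    have h3 := le_abs_self (Real.log R)
    have h4 := abs_nonneg (Real.log Q)
    have h5 := abs_nonneg (Real.log R)
    calc Real.log m ≤ |Real.log R| + d * Real.log H := by linarith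
      _ ≤ _ := by nlinarith [mul_nonneg h4 hlH, mul_nonneg h5 hlH]

end Pool.Agent.U583.VD
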