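import Mathlib
import Pool.Agent.U583.VD.Arch

/-!
# The pairs `(V, D)`
-/

set_option autoImplicit false

namespace Pool.Agent.U583.VD

open MvPolynomial

variable {σ : Type} [Fintype σ] {n s : ℕ}

/-- the image in the torus of dimension `n` of the `r`-tuples of points of `V - D` -/
def Img (r : ℕ) (F : Fin s → MvPolynomial σ ℤ) (g : Fin (n + 1) → MvPolynomial σ ℤ) :
    Set (Fin n → ℂ) :=
  {v | ∃ y : Fin r → σ → ℂ, (∀ k q, aeval (y k) (F q) = 0) ∧ (∀ k i, aeval (y k) (g i) ≠ 0) ∧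
    v = fun i => ∏ k, (aeval (y k) (g i.succ) / aeval (y k) (g 0))}

/-- `V : F = 0` is a projective variety and the `g i` are forms of degree `d > 0`; no `r` points of `V` meet all the divisors
`g i = 0`; the closure of the image of `(V - D)^r` in the torus is not invariant under a subtorus of positive dimension -/
structure IsPair (r d : ℕ) (F : Fin s → MvPolynomial σ ℤ) (g : Fin (n + 1) → MvPolynomial σ ℤ) :
    Prop where
  pos : 0 < d
  homF : ∀ q, ∃ e, (F q).IsHomogeneous e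
  homg : ∀ i, (g i).IsHomogeneous d
  free : ∀ y : Fin r → σ → ℂ, (∀ k q, aeval (y k) (F q) = 0) →
    (∀ i, ∃ k, aeval (y k) (g i) = 0) → ∃ k, y k = 0
  stab : ∀ a : Fin n → ℤ, a ≠ 0 → ∃ f : MvPolynomial (Fin n) ℚ,
    (∀ v ∈ Img r F g, aeval v f = 0) ∧
    ∃ v ∈ Img r F g, ∃ t : ℂ, t ≠ 0 ∧ aeval (fun i => t ^ a i * v i) f ≠ 0

end Pool.Agent.U583.VD
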