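import Mathlib
import Pool.Agent.U583.VD.Pair

/-!
# Points of degree `r` on the projective line
-/

set_option autoImplicit false
set_option maxHeartbeats 400000

namespace Pool.Agent.U583.VD

open MvPolynomial

variable {n r : ℕ}

/-- no equations -/
def noF : Fin 0 → MvPolynomial (Fin 2) ℤ := fun q => q.elim0

/-- the linear form which vanishes at the point `[a i : b i]` of the projective line -/
noncomputable def lineForm (a b : Fin (n + 1) → ℤ) (i : Fin (n + 1)) : MvPolynomial (Fin 2) ℤ :=
  C (b i) * X 0 - C (a i) * X 1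

theorem lineForm_eval (a b : Fin (n + 1) → ℤ) (i : Fin (n + 1)) (y : Fin 2 → ℂ) :
    aeval y (lineForm a b i) = (b i : ℂ) * y 0 - (a i : ℂ) * y 1 := by
  unfold lineForm
  simp

theorem lineForm_hom (a b : Fin (n + 1) → ℤ) (i : Fin (n + 1)) :
    (lineForm a b i).IsHomogeneous 1 := by
  unfold lineForm
  exact (isHomogeneous_C_mul_X _ _).sub (isHomogeneous_C_mul_X _ _)

/-- the product of the values at the points of a finite set of `r` of the given points -/
noncomputable def Wp (a b : Fin (n + 1) → ℤ) (t : Finset (Fin (n + 1))) (h : t.card = r) :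
    Fin r → Fin 2 → ℂ := fun j => ![(a (t.orderEmbOfFin h j) : ℂ), (b (t.orderEmbOfFin h j) : ℂ)]

theorem Wp_mem {a b : Fin (n + 1) → ℤ} {t : Finset (Fin (n + 1))} (h : t.card = r)
    {k : Fin (n + 1)} (hk : k ∈ t) : ∏ j, aeval (Wp a b t h j) (lineForm a b k) = 0 := by
  have h1 : k ∈ Set.range (t.orderEmbOfFin h) := by
    rw [Finset.range_orderEmbOfFin]
    exact hk
  obtain ⟨j, hj⟩ := h1
  refine Finset.prod_eq_zero (Finset.mem_univ j) ?_
  rw [lineForm_eval]
  simp only [Wp, Matrix.cons_val_zero, Matrix.cons_val_one, hj]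
  ring

theorem Wp_notMem {a b : Fin (n + 1) → ℤ} (hab : ∀ i j, i ≠ j → a i * b j - a j * b i ≠ 0)
    {t : Finset (Fin (n + 1))} (h : t.card = r) {k : Fin (n + 1)} (hk : k ∉ t) :
    ∏ j, aeval (Wp a b t h j) (lineForm a b k) ≠ 0 := by
  refine Finset.prod_ne_zero_iff.2 fun j _ => ?_
  rw [lineForm_eval]
  simp only [Wp, Matrix.cons_val_zero, Matrix.cons_val_one]
  have h1 : t.orderEmbOfFin h j ∈ t := Finset.orderEmbOfFin_mem t h j
  have h2 : t.orderEmbOfFin h j ≠ k := fun h3 => hk (h3 ▸ h1)
  have h3 := hab _ _ h2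
  intro h4
  apply h3
  have h5 : (((a (t.orderEmbOfFin h j) * b k - a k * b (t.orderEmbOfFin h j) : ℤ)) : ℂ) = 0 := by
    push_cast
    linear_combination h4
  exact_mod_cast h5

theorem relation {a b : Fin (n + 1) → ℤ} (hab : ∀ i j, i ≠ j → a i * b j - a j * b i ≠ 0)
    {K : Finset (Fin (n + 1))} (hK : K.card = r + 2) :
    ∃ l : Fin (n + 1) → ℚ, (∀ k ∉ K, l k = 0) ∧ (∀ k ∈ K, l k ≠ 0) ∧
      ∀ y : Fin r → Fin 2 → ℂ, ∑ k, (l k : ℂ) * ∏ j, aeval (y j) (lineForm a b k) = 0 := by
  classical
  have hnot : ¬ LinearIndependent ℚ fun k : {k // k ∈ K} =>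
      (fun m : Fin (r + 1) => ((b k.1 : ℚ)) ^ (m : ℕ) * (a k.1 : ℚ) ^ (r - (m : ℕ))) := by
    intro h
    have h1 := h.fintype_card_le_finrank
    rw [Fintype.card_coe, hK, Module.finrank_fintype_fun_eq_card, Fintype.card_fin] at h1
    omega
  rw [Fintype.not_linearIndependent_iff] at hnot
  obtain ⟨l', hl', k2, hk2⟩ := hnot
  obtain ⟨l, hl⟩ : ∃ l : Fin (n + 1) → ℚ, l = fun k => if h : k ∈ K then l' ⟨k, h⟩ else 0 :=
    ⟨_, rfl⟩
  have hlK : ∀ k ∉ K, l k = 0 := fun k hk => by
    rw [hl]
    simp [hk]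
  have hlK' : ∀ k : {k // k ∈ K}, l k.1 = l' k := fun k => by
    rw [hl]
    simp [k.2]
  have hsum : ∀ m : ℕ, m ≤ r → ∑ k, l k * ((b k : ℚ) ^ m * (a k : ℚ) ^ (r - m)) = 0 := by
    intro m hm
    have h1 := congrFun hl' ⟨m, by omega⟩
    rw [Finset.sum_apply] at h1
    simp only [Pi.smul_apply, smul_eq_mul, Pi.zero_apply] at h1
    rw [← Finset.sum_subset (Finset.subset_univ K) fun k _ hk => by rw [hlK k hk, zero_mul],
      ← Finset.sum_coe_sort K]
    rw [← h1]
    refine Finset.sum_congr rfl fun k _ => ?_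
    rw [hlK']
  have hrel : ∀ y : Fin r → Fin 2 → ℂ, ∑ k, (l k : ℂ) * ∏ j, aeval (y j) (lineForm a b k) = 0 := by
    intro y
    have h1 : ∀ k, ∏ j, aeval (y j) (lineForm a b k) = ∑ t ∈ (Finset.univ : Finset (Fin r)).powerset,
        ((b k : ℂ) ^ t.card * (a k : ℂ) ^ (r - t.card)) *
          ((∏ j ∈ t, y j 0) * ∏ j ∈ Finset.univ \ t, (- y j 1)) := by
      intro k
      have h2 : ∏ j, aeval (y j) (lineForm a b k) =
          ∏ j, ((b k : ℂ) * y j 0 + (a k : ℂ) * (- y j 1)) := by
        refine Finset.prod_congr rfl fun j _ => ?_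
        rw [lineForm_eval]
        ring
      rw [h2, Finset.prod_add]
      refine Finset.sum_congr rfl fun t _ => ?_
      rw [Finset.prod_mul_distrib, Finset.prod_mul_distrib, Finset.prod_const, Finset.prod_const,
        Finset.card_sdiff_of_subset (Finset.subset_univ t), Finset.card_univ, Fintype.card_fin]
      ring
    simp only [h1, Finset.mul_sum]
    rw [Finset.sum_comm]
    refine Finset.sum_eq_zero fun t _ => ?_
    have h3 : t.card ≤ r := by
      have := Finset.card_le_univ t
      rwa [Fintype.card_fin] at this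
    have h4 := hsum t.card h3
    have h5 : ∑ k, (l k : ℂ) * ((b k : ℂ) ^ t.card * (a k : ℂ) ^ (r - t.card)) = 0 := by
      have h6 := congrArg (fun q : ℚ => (q : ℂ)) h4
      push_cast at h6
      exact h6
    calc ∑ k, (l k : ℂ) * ((b k : ℂ) ^ t.card * (a k : ℂ) ^ (r - t.card) *
          ((∏ j ∈ t, y j 0) * ∏ j ∈ Finset.univ \ t, (- y j 1))) =
        (∑ k, (l k : ℂ) * ((b k : ℂ) ^ t.card * (a k : ℂ) ^ (r - t.card))) *
          ((∏ j ∈ t, y j 0) * ∏ j ∈ Finset.univ \ t, (- y j 1)) := by
          rw [Finset.sum_mul]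
          refine Finset.sum_congr rfl fun k _ => ?_
          ring
      _ = 0 := by rw [h5, zero_mul]
  refine ⟨l, hlK, fun k0 hk0 h0 => ?_, hrel⟩
  apply hk2
  rw [← hlK']
  by_cases h1 : k2.1 = k0
  · rw [h1, h0]
  · have hc : ((K.erase k0).erase k2.1).card = r := by
      rw [Finset.card_erase_of_mem (Finset.mem_erase.2 ⟨h1, k2.2⟩), Finset.card_erase_of_mem hk0, hK]
      omega
    have h2 := hrel (Wp a b _ hc)
    rw [Finset.sum_eq_single k2.1] at h2
    · rcases mul_eq_zero.1 h2 with h3 | h3
      · exact_mod_cast h3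
      · exact absurd h3 (Wp_notMem hab hc (by simp))
    · intro k _ hk
      by_cases hkK : k ∈ K
      · by_cases hkk : k = k0
        · rw [hkk, h0]
          simp
        · rw [Wp_mem hc (Finset.mem_erase.2 ⟨hk, Finset.mem_erase.2 ⟨hkk, hkK⟩⟩), mul_zero]
      · rw [hlK k hkK]
        simp
    · intro h3
      exact absurd (Finset.mem_univ _) h3

/-- every `r` and at least `r + 2` rational points of the projective line -/
theorem line {a b : Fin (n + 1) → ℤ} (hab : ∀ i j, i ≠ j → a i * b j - a j * b i ≠ 0)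
    (hr : r + 1 ≤ n) : IsPair r 1 noF (lineForm a b) := by
  classical
  refine ⟨one_pos, fun q => q.elim0, lineForm_hom a b, ?_, ?_⟩
  · intro y _ hi
    choose k hk using hi
    obtain ⟨i, j, hij, hkk⟩ := Fintype.exists_ne_map_eq_of_card_lt k (by
      rw [Fintype.card_fin, Fintype.card_fin]
      omega)
    refine ⟨k i, ?_⟩
    have h1 := hk i
    have h2 := hk j
    rw [← hkk] at h2
    rw [lineForm_eval] at h1 h2
    have h3 : ((a i * b j - a j * b i : ℤ) : ℂ) ≠ 0 := by exact_mod_cast hab i j hij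
    push_cast at h3
    funext t
    fin_cases t
    · show y (k i) 0 = 0
      have h4 : ((a i : ℂ) * b j - a j * b i) * y (k i) 0 = 0 := by
        linear_combination (a i : ℂ) * h2 - (a j : ℂ) * h1
      exact (mul_eq_zero.1 h4).resolve_left h3
    · show y (k i) 1 = 0
      have h4 : ((a i : ℂ) * b j - a j * b i) * y (k i) 1 = 0 := by
        linear_combination (b i : ℂ) * h2 - (b j : ℂ) * h1
      exact (mul_eq_zero.1 h4).resolve_left h3
  · intro c hc
    obtain ⟨i0, hi0⟩ := Function.ne_iff.1 hc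
    have h0i : (0 : Fin (n + 1)) ≠ i0.succ := (Fin.succ_ne_zero i0).symm
    obtain ⟨K, hK1, -, hK2⟩ := Finset.exists_subsuperset_card_eq
      (s := {0, i0.succ}) (t := (Finset.univ : Finset (Fin (n + 1)))) (n := r + 2)
      (Finset.subset_univ _) (by rw [Finset.card_pair h0i]; omega) (by
        rw [Finset.card_univ, Fintype.card_fin]
        omega)
    have h0K : (0 : Fin (n + 1)) ∈ K := hK1 (by simp)
    have hiK : i0.succ ∈ K := hK1 (by simp)
    obtain ⟨l, hl0, hl1, hrel⟩ := relation (r := r) hab hK2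
    obtain ⟨f, hf⟩ : ∃ f : MvPolynomial (Fin n) ℚ, f = C (l 0) + ∑ i : Fin n, C (l i.succ) * X i :=
      ⟨_, rfl⟩
    have hfe : ∀ v : Fin n → ℂ, aeval v f = (l 0 : ℂ) + ∑ i : Fin n, (l i.succ : ℂ) * v i := by
      intro v
      rw [hf, map_add, map_sum, aeval_C]
      simp only [map_mul, aeval_C, aeval_X, eq_ratCast]
    -- the values at the image
    have hval : ∀ (w : Fin n → ℂ) (y : Fin r → Fin 2 → ℂ),
        (∀ k i, aeval (y k) (lineForm a b i) ≠ 0) →
        aeval (fun i => w i * ∏ k, (aeval (y k) (lineForm a b i.succ) /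
          aeval (y k) (lineForm a b 0))) f * ∏ k, aeval (y k) (lineForm a b 0) =
        (l 0 : ℂ) * ∏ k, aeval (y k) (lineForm a b 0) +
          ∑ i : Fin n, (l i.succ : ℂ) * (w i * ∏ k, aeval (y k) (lineForm a b i.succ)) := by
      intro w y hy
      have h1 : ∏ k, aeval (y k) (lineForm a b 0) ≠ 0 :=
        Finset.prod_ne_zero_iff.2 fun k _ => hy k 0
      rw [hfe, add_mul, Finset.sum_mul]
      congr 1
      refine Finset.sum_congr rfl fun i _ => ?_
      rw [Finset.prod_div_distrib]
      field_simp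
    refine ⟨f, ?_, ?_⟩
    · rintro _ ⟨y, -, hy, rfl⟩
      have h1 := hval (fun _ => 1) y hy
      simp only [one_mul] at h1
      have h2 := hrel y
      rw [Fin.sum_univ_succ] at h2
      rw [h2] at h1
      exact (mul_eq_zero.1 h1).resolve_right (Finset.prod_ne_zero_iff.2 fun k _ => hy k 0)
    · by_contra hcon
      push Not at hcon
      -- the polynomial is zero for all tuples outside of `D`
      obtain ⟨Q, hQ⟩ : ∃ Q : (Fin r → Fin 2 → ℂ) → ℂ, Q = fun y =>
          (l 0 : ℂ) * ∏ k, aeval (y k) (lineForm a b 0) +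
          ∑ i : Fin n, (l i.succ : ℂ) * ((2 : ℂ) ^ c i * ∏ k, aeval (y k) (lineForm a b i.succ)) :=
        ⟨_, rfl⟩
      have hQ0 : ∀ y : Fin r → Fin 2 → ℂ, (∀ k i, aeval (y k) (lineForm a b i) ≠ 0) → Q y = 0 := by
        intro y hy
        have h1 := hcon _ ⟨y, fun k q => q.elim0, hy, rfl⟩ 2 two_ne_zero
        have h2 := hval (fun i => (2 : ℂ) ^ c i) y hy
        rw [h1, zero_mul] at h2
        rw [hQ]
        exact h2.symm
      have hQc : Continuous Q := by
        rw [hQ]
        have h1 : ∀ i : Fin (n + 1), Continuous fun y : Fin r → Fin 2 → ℂ =>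
            ∏ k, aeval (y k) (lineForm a b i) := fun i =>
          continuous_finsetProd _ fun k _ => (cont_aevalC (lineForm a b i)).comp
            (continuous_apply k)
        exact ((h1 0).const_mul _).add (continuous_finset_sum _ fun i _ =>
          ((h1 i.succ).const_mul _).const_mul _)
      -- a direction outside of all the points
      obtain ⟨e, he⟩ : ∃ e : Fin 2 → ℂ, ∀ i : Fin (n + 1), aeval e (lineForm a b i) ≠ 0 := by
        have h1 : ∀ i : Fin (n + 1), ∃ x : Fin 2 → ℂ,
            ((b i : ℂ) • LinearMap.proj (R := ℂ) (φ := fun _ : Fin 2 => ℂ) 0 -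
              (a i : ℂ) • LinearMap.proj (R := ℂ) (φ := fun _ : Fin 2 => ℂ) 1 :
              Module.Dual ℂ (Fin 2 → ℂ)) x ≠ 0 := by
          intro i
          obtain ⟨j, hj⟩ : ∃ j : Fin (n + 1), j ≠ i := by
            by_cases h2 : i = 0
            · exact ⟨i0.succ, by rw [h2]; exact h0i.symm⟩
            · exact ⟨0, fun h => h2 h.symm⟩
          refine ⟨![(a j : ℂ), (b j : ℂ)], ?_⟩
          have h3 := hab j i hj
          simp only [LinearMap.sub_apply, LinearMap.smul_apply, LinearMap.proj_apply,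
            Matrix.cons_val_zero, Matrix.cons_val_one, smul_eq_mul]
          intro h4
          apply h3
          have h5 : ((a j * b i - a i * b j : ℤ) : ℂ) = 0 := by
            push_cast
            linear_combination h4
          exact_mod_cast h5
        obtain ⟨e, he⟩ := Module.Dual.exists_forall_ne_zero_of_forall_exists _ h1
        refine ⟨e, fun i => ?_⟩
        rw [lineForm_eval]
        simpa using he i
      have hc' : ((K.erase 0).erase i0.succ).card = r := by
        rw [Finset.card_erase_of_mem (Finset.mem_erase.2 ⟨h0i.symm, hiK⟩),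
          Finset.card_erase_of_mem h0K, hK2]
        omega
      obtain ⟨y0, hy0⟩ : ∃ y0 : Fin r → Fin 2 → ℂ, y0 = Wp a b _ hc' := ⟨_, rfl⟩
      have hlin : ∀ (i : Fin (n + 1)) (k : Fin r) (t : ℂ),
          aeval (fun j => y0 k j + t * e j) (lineForm a b i) =
            aeval (y0 k) (lineForm a b i) + t * aeval e (lineForm a b i) := by
        intro i k t
        rw [lineForm_eval, lineForm_eval, lineForm_eval]
        ring
      have hbad : Set.Finite {t : ℂ | ∃ (k : Fin r) (i : Fin (n + 1)),
          aeval (fun j => y0 k j + t * e j) (lineForm a b i) = 0} := by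
        refine Set.Finite.subset (Set.finite_range fun p : Fin r × Fin (n + 1) =>
          - aeval (y0 p.1) (lineForm a b p.2) / aeval e (lineForm a b p.2)) ?_
        rintro t ⟨k, i, hki⟩
        rw [hlin] at hki
        refine ⟨(k, i), ?_⟩
        simp only
        rw [div_eq_iff (he i)]
        linear_combination -hki
      have hpath : Continuous fun t : ℂ => Q (fun k j => y0 k j + t * e j) := by
        refine hQc.comp ?_
        fun_prop
      have hQy0 : Q y0 = 0 := by
        have hcl : IsClosed {t : ℂ | Q (fun k j => y0 k j + t * e j) = 0} :=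
          isClosed_eq hpath continuous_const
        have hsub : {t : ℂ | ∃ (k : Fin r) (i : Fin (n + 1)),
            aeval (fun j => y0 k j + t * e j) (lineForm a b i) = 0}ᶜ ⊆
            {t : ℂ | Q (fun k j => y0 k j + t * e j) = 0} := by
          intro t ht
          refine hQ0 _ fun k i hki => ht ⟨k, i, hki⟩
        have hd : Dense ({t : ℂ | ∃ (k : Fin r) (i : Fin (n + 1)),
            aeval (fun j => y0 k j + t * e j) (lineForm a b i) = 0}ᶜ) :=
          hbad.countable.dense_compl ℂ
        have h1 : (0 : ℂ) ∈ {t : ℂ | Q (fun k j => y0 k j + t * e j) = 0} := by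
          have h2 := hcl.closure_subset_iff.2 hsub
          exact h2 (hd 0)
        have h3 : (fun k j => y0 k j + (0 : ℂ) * e j) = y0 := by
          funext k j
          rw [zero_mul, add_zero]
        have h4 : Q (fun k j => y0 k j + (0 : ℂ) * e j) = 0 := h1
        rwa [h3] at h4
      have hother : ∀ k : Fin (n + 1), k ≠ 0 → k ≠ i0.succ →
          (l k : ℂ) * ∏ j, aeval (y0 j) (lineForm a b k) = 0 := by
        intro k hk0 hki
        by_cases hkK : k ∈ K
        · rw [hy0, Wp_mem hc' (Finset.mem_erase.2 ⟨hki, Finset.mem_erase.2 ⟨hk0, hkK⟩⟩), mul_zero]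
        · rw [hl0 k hkK]
          simp
      have h1 := hrel y0
      rw [Fin.sum_univ_succ, Finset.sum_eq_single i0 (fun i _ hi => hother _ (Fin.succ_ne_zero i)
        fun h => hi (Fin.succ_injective _ h)) (fun h => absurd (Finset.mem_univ _) h)] at h1
      rw [hQ] at hQy0
      simp only at hQy0
      rw [Finset.sum_eq_single i0 (fun i _ hi => by
        have := hother _ (Fin.succ_ne_zero i) fun h => hi (Fin.succ_injective _ h)
        linear_combination (2 : ℂ) ^ c i * this) (fun h => absurd (Finset.mem_univ _) h)] at hQy0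
      have hW : (l i0.succ : ℂ) * ∏ j, aeval (y0 j) (lineForm a b i0.succ) ≠ 0 := by
        refine mul_ne_zero (by exact_mod_cast hl1 _ hiK) ?_
        rw [hy0]
        exact Wp_notMem hab hc' (by simp)
      have h2 : ((2 : ℂ) ^ c i0 - 1) * ((l i0.succ : ℂ) *
          ∏ j, aeval (y0 j) (lineForm a b i0.succ)) = 0 := by
        linear_combination hQy0 - h1
      have h3 : (2 : ℂ) ^ c i0 = 1 := sub_eq_zero.1 ((mul_eq_zero.1 h2).resolve_right hW)
      have h4 : (2 : ℝ) ^ c i0 = 1 := by
        have h5 := congrArg (fun z : ℂ => ‖z‖) h3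
        simpa using h5
      have h5 : c i0 = 0 := by
        have := (zpow_eq_one_iff_right₀ (by norm_num : (0 : ℝ) ≤ 2) (by norm_num)).1 h4
        exact this
      exact hi0 h5

end Pool.Agent.U583.VD
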